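import Mathlib

-- part MP_7afc88_an.Calc
section

open MeasureTheory Set Metric Filter Topology Laplacian Module
open scoped ContDiff InnerProductSpace

namespace Pool.Agent.MP_7afc88_an

variable {E : Type} [NormedAddCommGroup E] [InnerProductSpace ℝ E] [FiniteDimensional ℝ E]

/-- directional derivative -/
noncomputable def D (e : E) (φ : E → ℝ) : E → ℝ := fun x => fderiv ℝ φ x e

/-- Laplacian in the standard orthonormal basis -/
noncomputable def Lap (φ : E → ℝ) : E → ℝ :=
  fun x => ∑ i, D (stdOrthonormalBasis ℝ E i) (D (stdOrthonormalBasis ℝ E i) φ) x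

structure Test (B : Set E) (φ : E → ℝ) : Prop where
  smooth : ContDiff ℝ ∞ φ
  cpt : HasCompactSupport φ
  sub : tsupport φ ⊆ B

omit [FiniteDimensional ℝ E] in
theorem contDiff_D {φ : E → ℝ} (h : ContDiff ℝ ∞ φ) (e : E) : ContDiff ℝ ∞ (D e φ) := by
  have h1 : ContDiff ℝ ∞ (fderiv ℝ φ) := h.fderiv_right (m := ∞) (by simp)
  exact h1.clm_apply contDiff_const

omit [FiniteDimensional ℝ E] in
theorem diff_of_smooth {φ : E → ℝ} (h : ContDiff ℝ ∞ φ) : Differentiable ℝ φ :=
  h.differentiable (by simp)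

omit [FiniteDimensional ℝ E] in
theorem D_D_eq {φ : E → ℝ} (h : ContDiff ℝ ∞ φ) (e e' x : E) :
    D e (D e' φ) x = fderiv ℝ (fderiv ℝ φ) x e e' := by
  have h1 : ContDiff ℝ ∞ (fderiv ℝ φ) := h.fderiv_right (m := ∞) (by simp)
  have h2 : DifferentiableAt ℝ (fderiv ℝ φ) x := h1.differentiable (by simp) x
  unfold D
  rw [fderiv_clm_apply h2 (differentiableAt_const _)]
  simp

omit [FiniteDimensional ℝ E] in
theorem D_comm {φ : E → ℝ} (h : ContDiff ℝ ∞ φ) (e e' : E) :
    D e (D e' φ) = D e' (D e φ) := by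
  funext x
  rw [D_D_eq h, D_D_eq h]
  have : IsSymmSndFDerivAt ℝ φ x := h.contDiffAt.isSymmSndFDerivAt (by
    simp only [minSmoothness_of_isRCLikeNormedField]
    exact WithTop.coe_le_coe.2 (le_top : (2 : ℕ∞) ≤ ⊤))
  exact this e e'

theorem laplacian_eq_Lap {φ : E → ℝ} (h : ContDiff ℝ ∞ φ) : Δ φ = Lap φ := by
  rw [InnerProductSpace.laplacian_eq_iteratedFDeriv_stdOrthonormalBasis]
  funext x
  unfold Lap
  refine Finset.sum_congr rfl fun i _ => ?_
  rw [D_D_eq h, iteratedFDeriv_two_apply]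
  simp

theorem contDiff_Lap {φ : E → ℝ} (h : ContDiff ℝ ∞ φ) : ContDiff ℝ ∞ (Lap φ) :=
  ContDiff.sum fun _ _ => contDiff_D (contDiff_D h _) _

omit [FiniteDimensional ℝ E] in
theorem D_sum {ι : Type} (s : Finset ι) {φ : ι → E → ℝ} (h : ∀ i, ContDiff ℝ ∞ (φ i)) (e : E) :
    D e (fun x => ∑ i ∈ s, φ i x) = fun x => ∑ i ∈ s, D e (φ i) x := by
  funext x
  unfold D
  rw [fderiv_fun_sum fun i _ => diff_of_smooth (h i) x]
  simp

theorem D_Lap {φ : E → ℝ} (h : ContDiff ℝ ∞ φ) (e : E) : D e (Lap φ) = Lap (D e φ) := by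
  unfold Lap
  rw [D_sum _ (fun i => contDiff_D (contDiff_D h _) _)]
  funext x
  refine Finset.sum_congr rfl fun i _ => ?_
  rw [D_comm (contDiff_D h _) e, D_comm h e]

omit [FiniteDimensional ℝ E] in
theorem tsupport_D_subset (φ : E → ℝ) (e : E) : tsupport (D e φ) ⊆ tsupport φ :=
  tsupport_fderiv_apply_subset ℝ e

omit [FiniteDimensional ℝ E] in
theorem Test.D {B : Set E} {φ : E → ℝ} (h : Test B φ) (e : E) : Test B (D e φ) :=
  ⟨contDiff_D h.smooth e, h.cpt.of_isClosed_subset (isClosed_tsupport _) (tsupport_D_subset φ e),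
    (tsupport_D_subset φ e).trans h.sub⟩

theorem tsupport_Lap_subset (φ : E → ℝ) : tsupport (Lap φ) ⊆ tsupport φ := by
  refine closure_minimal (fun x hx => ?_) (isClosed_tsupport _)
  by_contra hx'
  apply hx
  unfold Lap
  refine Finset.sum_eq_zero fun i _ => ?_
  apply image_eq_zero_of_notMem_tsupport
  exact fun h => hx' (tsupport_D_subset _ _ (tsupport_D_subset _ _ h))

theorem Test.Lap {B : Set E} {φ : E → ℝ} (h : Test B φ) : Test B (Lap φ) :=
  ⟨contDiff_Lap h.smooth, h.cpt.of_isClosed_subset (isClosed_tsupport _) (tsupport_Lap_subset φ),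
    (tsupport_Lap_subset φ).trans h.sub⟩

omit [FiniteDimensional ℝ E] in
theorem Test.mono {B B' : Set E} {φ : E → ℝ} (h : Test B φ) (hB : B ⊆ B') : Test B' φ :=
  ⟨h.smooth, h.cpt, h.sub.trans hB⟩

omit [FiniteDimensional ℝ E] in
theorem Test.zero {B : Set E} {φ : E → ℝ} (h : Test B φ) {x : E} (hx : x ∉ B) : φ x = 0 :=
  image_eq_zero_of_notMem_tsupport fun h' => hx (h.sub h')

omit [FiniteDimensional ℝ E] in
theorem Test.bound {B : Set E} {φ : E → ℝ} (h : Test B φ) : ∃ C : ℝ, 0 ≤ C ∧ ∀ x, |φ x| ≤ C := by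
  obtain ⟨C, hC⟩ := h.smooth.continuous.bounded_above_of_compact_support h.cpt
  exact ⟨C, (norm_nonneg _).trans (hC 0), hC⟩

/-- generator of dilations -/
noncomputable def sharp (κ : E → ℝ) : E → ℝ :=
  fun y => -((finrank ℝ E : ℝ) * κ y + fderiv ℝ κ y y)

omit [FiniteDimensional ℝ E] in
theorem contDiff_sharp {κ : E → ℝ} (h : ContDiff ℝ ∞ κ) : ContDiff ℝ ∞ (sharp κ) := by
  have h1 : ContDiff ℝ ∞ (fderiv ℝ κ) := h.fderiv_right (m := ∞) (by simp)
  exact ((contDiff_const.mul h).add (h1.clm_apply contDiff_id)).neg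

omit [FiniteDimensional ℝ E] in
theorem D_sharp {κ : E → ℝ} (h : ContDiff ℝ ∞ κ) (e : E) :
    D e (sharp κ) = fun y => sharp (D e κ) y - D e κ y := by
  funext y
  have h1 : ContDiff ℝ ∞ (fderiv ℝ κ) := h.fderiv_right (m := ∞) (by simp)
  have h2 : DifferentiableAt ℝ (fderiv ℝ κ) y := h1.differentiable (by simp) y
  have h3 : HasFDerivAt (sharp κ) (-((finrank ℝ E : ℝ) • fderiv ℝ κ y +
      ((fderiv ℝ κ y).comp (ContinuousLinearMap.id ℝ E) + (fderiv ℝ (fderiv ℝ κ) y).flip y))) y :=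
    (((diff_of_smooth h y).hasFDerivAt.const_mul _).add
      (h2.hasFDerivAt.clm_apply (hasFDerivAt_id y))).neg
  have h4 : fderiv ℝ (D e κ) y y = fderiv ℝ (fderiv ℝ κ) y e y := by
    have := D_D_eq h e y y
    rw [D_comm h] at this
    exact this
  have h5 : D e (sharp κ) y = fderiv ℝ (sharp κ) y e := rfl
  rw [h5, h3.fderiv]
  simp only [sharp, h4]
  simp [D]
  ring

omit [FiniteDimensional ℝ E] in
theorem tsupport_sharp_subset (κ : E → ℝ) : tsupport (sharp κ) ⊆ tsupport κ := by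
  refine closure_minimal (fun x hx => ?_) (isClosed_tsupport _)
  by_contra hx'
  apply hx
  have h1 : κ x = 0 := image_eq_zero_of_notMem_tsupport hx'
  have h2 : fderiv ℝ κ x = 0 :=
    image_eq_zero_of_notMem_tsupport fun h => hx' (tsupport_fderiv_subset ℝ h)
  simp [sharp, h1, h2]

omit [FiniteDimensional ℝ E] in
theorem Test.sharp {B : Set E} {φ : E → ℝ} (h : Test B φ) : Test B (sharp φ) :=
  ⟨contDiff_sharp h.smooth,
    h.cpt.of_isClosed_subset (isClosed_tsupport _) (tsupport_sharp_subset φ),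
    (tsupport_sharp_subset φ).trans h.sub⟩

/-- rescaled and translated kernel -/
noncomputable def sc (κ : E → ℝ) (s : ℝ) (z : E) : E → ℝ :=
  fun w => (s ^ finrank ℝ E)⁻¹ * κ (s⁻¹ • (w - z))

omit [FiniteDimensional ℝ E] in
theorem contDiff_sc {κ : E → ℝ} (h : ContDiff ℝ ∞ κ) (s : ℝ) (z : E) :
    ContDiff ℝ ∞ (sc κ s z) :=
  contDiff_const.mul (h.comp ((contDiff_id.sub contDiff_const).const_smul s⁻¹))

omit [FiniteDimensional ℝ E] in
theorem D_sc {κ : E → ℝ} (h : ContDiff ℝ ∞ κ) (s : ℝ) (z e : E) :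
    D e (sc κ s z) = fun w => s⁻¹ * sc (D e κ) s z w := by
  funext w
  have h1 : HasFDerivAt (fun w : E => s⁻¹ • (w - z)) (s⁻¹ • ContinuousLinearMap.id ℝ E) w :=
    ((hasFDerivAt_id w).sub_const z).const_smul s⁻¹
  have h2 := ((diff_of_smooth h _).hasFDerivAt.comp w h1).const_mul (s ^ finrank ℝ E)⁻¹
  have h3 : D e (sc κ s z) w = fderiv ℝ (sc κ s z) w e := rfl
  have h4 : HasFDerivAt (sc κ s z) _ w := h2
  rw [h3, h4.fderiv]
  simp [sc, D]
  ring

omit [FiniteDimensional ℝ E] in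
theorem D_const_mul {φ : E → ℝ} (h : ContDiff ℝ ∞ φ) (c : ℝ) (e : E) :
    D e (fun w => c * φ w) = fun w => c * D e φ w := by
  funext w
  unfold D
  rw [fderiv_const_mul (diff_of_smooth h w)]
  simp

theorem Lap_sc {κ : E → ℝ} (h : ContDiff ℝ ∞ κ) (s : ℝ) (z : E) :
    Lap (sc κ s z) = fun w => s⁻¹ ^ 2 * sc (Lap κ) s z w := by
  funext w
  unfold Lap
  simp only [D_sc h, D_const_mul (contDiff_sc (contDiff_D h _) s z), D_sc (contDiff_D h _)]
  simp only [sc, Finset.mul_sum]
  refine Finset.sum_congr rfl fun i _ => ?_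
  ring

omit [FiniteDimensional ℝ E] in
theorem sc_zero {κ : E → ℝ} (h : Test (closedBall 0 1) κ) {s : ℝ} (hs : 0 < s) {z w : E}
    (hw : w ∉ closedBall z s) : sc κ s z w = 0 := by
  have : κ (s⁻¹ • (w - z)) = 0 := by
    apply h.zero
    intro h'
    apply hw
    rw [mem_closedBall_zero_iff, norm_smul, norm_inv, Real.norm_of_nonneg hs.le,
      inv_mul_le_iff₀ hs, mul_one] at h'
    rwa [mem_closedBall, dist_eq_norm]
  simp [sc, this]

theorem Test.sc {κ : E → ℝ} (h : Test (closedBall 0 1) κ) {s : ℝ} (hs : 0 < s) (z : E) :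
    Test (closedBall z s) (sc κ s z) := by
  have h1 : tsupport (Pool.Agent.MP_7afc88_an.sc κ s z) ⊆ closedBall z s := by
    refine closure_minimal (fun w hw => ?_) isClosed_closedBall
    by_contra hw'
    exact hw (sc_zero h hs hw')
  exact ⟨contDiff_sc h.smooth s z,
    (isCompact_closedBall z s).of_isClosed_subset (isClosed_tsupport _) h1, h1⟩

theorem sum_inner_basis (a b : E) :
    ∑ i, ⟪a, stdOrthonormalBasis ℝ E i⟫_ℝ * ⟪b, stdOrthonormalBasis ℝ E i⟫_ℝ = ⟪a, b⟫_ℝ := by
  rw [← (stdOrthonormalBasis ℝ E).sum_inner_mul_inner a b]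
  refine Finset.sum_congr rfl fun i _ => ?_
  rw [real_inner_comm b]

theorem Lap_eq_sharp {η ρ : E → ℝ} (hρ : ContDiff ℝ ∞ ρ)
    (h : ∀ e y, D e η y = -(⟪y, e⟫_ℝ * ρ y)) : Lap η = sharp ρ := by
  funext y
  have h1 : ∀ e : E, D e (D e η) y = -(⟪e, e⟫_ℝ * ρ y + ⟪y, e⟫_ℝ * fderiv ℝ ρ y e) := by
    intro e
    have h2 : D e η = fun y => -(⟪y, e⟫_ℝ * ρ y) := funext (h e)
    have h3 : HasFDerivAt (fun y : E => ⟪y, e⟫_ℝ) ((innerSL ℝ (E := E)).flip e) y :=
      ((innerSL ℝ (E := E)).flip e).hasFDerivAt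
    have h4 := (h3.mul (diff_of_smooth hρ y).hasFDerivAt).neg
    have h5 : HasFDerivAt (fun y => -(⟪y, e⟫_ℝ * ρ y)) _ y := h4
    rw [h2]
    unfold D
    rw [h5.fderiv]
    have h7 : ((innerSL ℝ (E := E)).flip e) e = ⟪e, e⟫_ℝ := rfl
    simp only [_root_.neg_apply, _root_.add_apply,
      _root_.smul_apply, h7, smul_eq_mul]
    ring
  unfold Lap sharp
  simp only [h1]
  have h6 : ∑ i, ⟪y, stdOrthonormalBasis ℝ E i⟫_ℝ * fderiv ℝ ρ y (stdOrthonormalBasis ℝ E i)
      = fderiv ℝ ρ y y := by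
    have h8 := congrArg (fderiv ℝ ρ y) ((stdOrthonormalBasis ℝ E).sum_repr' y)
    rw [← h8, map_sum]
    refine Finset.sum_congr rfl fun i _ => ?_
    rw [map_smul, real_inner_comm, smul_eq_mul]
  rw [Finset.sum_neg_distrib, Finset.sum_add_distrib, h6]
  simp

end Pool.Agent.MP_7afc88_an

end

-- part MP_7afc88_an.Kernel
section

open MeasureTheory Set Metric Filter Topology Laplacian Module
open scoped ContDiff InnerProductSpace

namespace Pool.Agent.MP_7afc88_an

variable {E : Type} [NormedAddCommGroup E] [InnerProductSpace ℝ E] [FiniteDimensional ℝ E]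
  [MeasurableSpace E] [BorelSpace E]

structure Ker (η ρ : E → ℝ) : Prop where
  tη : Test (closedBall 0 1) η
  tρ : Test (closedBall 0 1) ρ
  nonneg : ∀ y, 0 ≤ ρ y
  low : ∃ c : ℝ, 0 < c ∧ ∀ y ∈ closedBall (0 : E) (1 / 2), c ≤ ρ y
  one : ∫ y, ρ y = 1
  pos : 0 < ∫ y, η y
  grad : ∀ e y, D e η y = -(⟪y, e⟫_ℝ * ρ y)

theorem hasDerivAt_glue (x : ℝ) : HasDerivAt expNegInvGlue (x⁻¹ ^ 2 * expNegInvGlue x) x := by
  have := expNegInvGlue.hasDerivAt_polynomial_eval_inv_mul 1 x
  simpa using this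

omit [MeasurableSpace E] [BorelSpace E] in
theorem test_radial {g : ℝ → ℝ} (hg : ContDiff ℝ ∞ g) (h0 : ∀ x ≤ 0, g x = 0) (c : ℝ) :
    Test (closedBall (0 : E) 1) (fun y => c * g (1 - ‖y‖ ^ 2)) := by
  have h1 : tsupport (fun y : E => c * g (1 - ‖y‖ ^ 2)) ⊆ closedBall 0 1 := by
    refine closure_minimal (fun w hw => ?_) isClosed_closedBall
    by_contra hw'
    apply hw
    rw [mem_closedBall_zero_iff, not_le] at hw'
    have : g (1 - ‖w‖ ^ 2) = 0 := h0 _ (by nlinarith)
    simp [this]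
  exact ⟨contDiff_const.mul (hg.comp (contDiff_const.sub (contDiff_norm_sq ℝ))),
    (isCompact_closedBall 0 1).of_isClosed_subset (isClosed_tsupport _) h1, h1⟩

theorem exists_ker : ∃ η ρ : E → ℝ, Ker η ρ := by
  have hg : ContDiff ℝ ∞ expNegInvGlue := expNegInvGlue.contDiff
  have hg' : ContDiff ℝ ∞ (deriv expNegInvGlue) := (contDiff_infty_iff_deriv.1 hg).2
  have hd : ∀ x, deriv expNegInvGlue x = x⁻¹ ^ 2 * expNegInvGlue x :=
    fun x => (hasDerivAt_glue x).deriv
  have h0 : ∀ x ≤ 0, expNegInvGlue x = 0 := fun x hx => expNegInvGlue.zero_of_nonpos hx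
  have h0' : ∀ x ≤ 0, deriv expNegInvGlue x = 0 := fun x hx => by rw [hd, h0 x hx, mul_zero]
  have hn' : ∀ x, 0 ≤ deriv expNegInvGlue x := fun x => by
    rw [hd]; exact mul_nonneg (sq_nonneg _) (expNegInvGlue.nonneg x)
  have hp' : ∀ x, 0 < x → 0 < deriv expNegInvGlue x := fun x hx => by
    rw [hd]; exact mul_pos (pow_pos (inv_pos.2 hx) 2) (expNegInvGlue.pos_of_pos hx)
  have hm : 0 < ∫ y : E, 2 * deriv expNegInvGlue (1 - ‖y‖ ^ 2) := by
    have T := test_radial (E := E) hg' h0' 2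
    refine T.smooth.continuous.integral_pos_of_hasCompactSupport_nonneg_nonzero (x := 0) T.cpt
      (fun y => mul_nonneg zero_le_two (hn' _)) ?_
    have := hp' 1 one_pos
    simpa using this.ne'
  set m := ∫ y : E, 2 * deriv expNegInvGlue (1 - ‖y‖ ^ 2) with hm'
  refine ⟨fun y => m⁻¹ * expNegInvGlue (1 - ‖y‖ ^ 2),
    fun y => (m⁻¹ * 2) * deriv expNegInvGlue (1 - ‖y‖ ^ 2), test_radial hg h0 _,
    test_radial hg' h0' _, fun y => mul_nonneg (by positivity) (hn' _), ?_, ?_, ?_, ?_⟩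
  · have T := test_radial (E := E) hg' h0' (m⁻¹ * 2)
    obtain ⟨y, hy, hmin⟩ := (isCompact_closedBall (0 : E) (1 / 2)).exists_isMinOn
      ⟨0, mem_closedBall_self (by norm_num)⟩ T.smooth.continuous.continuousOn
    refine ⟨_, ?_, fun z hz => hmin hz⟩
    refine mul_pos (by positivity) (hp' _ ?_)
    rw [mem_closedBall_zero_iff] at hy
    nlinarith [norm_nonneg y]
  · simp only [mul_assoc]
    rw [integral_const_mul, ← hm', inv_mul_cancel₀ hm.ne']
  · have T := test_radial (E := E) hg h0 m⁻¹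
    refine T.smooth.continuous.integral_pos_of_hasCompactSupport_nonneg_nonzero (x := 0) T.cpt
      (fun y => mul_nonneg (by positivity) (expNegInvGlue.nonneg _)) ?_
    have := expNegInvGlue.pos_of_pos one_pos
    have h2 : 0 < m⁻¹ * expNegInvGlue 1 := by positivity
    simpa using h2.ne'
  · intro e y
    have h1 : HasFDerivAt (fun y : E => 1 - ‖y‖ ^ 2) (-(2 • innerSL ℝ y)) y :=
      (hasStrictFDerivAt_norm_sq y).hasFDerivAt.const_sub 1
    have h2 := ((diff_of_smooth hg (1 - ‖y‖ ^ 2)).hasDerivAt.comp_hasFDerivAt y h1).const_mul m⁻¹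
    have h3 : HasFDerivAt (fun y : E => m⁻¹ * expNegInvGlue (1 - ‖y‖ ^ 2)) _ y := h2
    unfold D
    rw [h3.fderiv]
    simp
    ring

theorem Ker.lap {η ρ : E → ℝ} (h : Ker η ρ) : Lap η = sharp ρ :=
  Lap_eq_sharp h.tρ.smooth h.grad

theorem Ker.lapD {η ρ : E → ℝ} (h : Ker η ρ) (e : E) :
    Lap (D e η) = fun y => sharp (D e ρ) y - D e ρ y := by
  rw [← D_Lap h.tη.smooth, h.lap, D_sharp h.tρ.smooth]

end Pool.Agent.MP_7afc88_an

end

-- part MP_7afc88_an.Avg
section

open MeasureTheory Set Metric Filter Topology Laplacian Module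
open scoped ContDiff InnerProductSpace ENNReal Convolution

set_option linter.unusedSectionVars false

namespace Pool.Agent.MP_7afc88_an

variable {E : Type} [NormedAddCommGroup E] [InnerProductSpace ℝ E] [FiniteDimensional ℝ E]
  [MeasurableSpace E] [BorelSpace E]

/-- the affine map `y ↦ x + r • y` as a homeomorphism -/
noncomputable def aff (x : E) {r : ℝ} (hr : 0 < r) : E ≃ₜ E :=
  (Homeomorph.smulOfNeZero r hr.ne').trans (Homeomorph.addLeft x)

theorem map_aff (x : E) {r : ℝ} (hr : 0 < r) :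
    Measure.map (fun y : E => x + r • y) volume =
      ENNReal.ofReal (r ^ finrank ℝ E)⁻¹ • (volume : Measure E) := by
  have h1 : (fun y : E => x + r • y) = (fun y => x + y) ∘ (fun y : E => r • y) := rfl
  rw [h1, ← Measure.map_map (measurable_const_add x) (measurable_const_smul r),
    Measure.map_addHaar_smul volume hr.ne', Measure.map_smul, map_add_left_eq_self,
    abs_of_pos (by positivity)]

theorem measurableEmbedding_aff (x : E) {r : ℝ} (hr : 0 < r) :
    MeasurableEmbedding (fun y : E => x + r • y) :=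
  (aff x hr).measurableEmbedding

theorem lintegral_aff (x : E) {r : ℝ} (hr : 0 < r) (Ψ : E → ℝ≥0∞) :
    ∫⁻ y, Ψ (x + r • y) = ENNReal.ofReal (r ^ finrank ℝ E)⁻¹ * ∫⁻ w, Ψ w := by
  rw [← (measurableEmbedding_aff x hr).lintegral_map, map_aff x hr, lintegral_smul_measure,
    smul_eq_mul]

theorem integral_aff (x : E) {r : ℝ} (hr : 0 < r) (Ψ : E → ℝ) :
    ∫ y, Ψ (x + r • y) = (r ^ finrank ℝ E)⁻¹ * ∫ w, Ψ w := by
  rw [← (measurableEmbedding_aff x hr).integral_map, map_aff x hr, integral_smul_measure,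
    ENNReal.toReal_ofReal (by positivity), smul_eq_mul]

theorem qmp_aff (x : E) {r : ℝ} (hr : 0 < r) :
    Measure.QuasiMeasurePreserving (fun y : E => x + r • y) volume volume :=
  ⟨(measurableEmbedding_aff x hr).measurable, by
    rw [map_aff x hr]; exact Measure.smul_absolutelyContinuous⟩

theorem mem_aff (x : E) {r : ℝ} (hr : 0 < r) (R : ℝ) (y : E) :
    x + r • y ∈ closedBall x (r * R) ↔ y ∈ closedBall (0 : E) R := by
  rw [mem_closedBall_zero_iff, mem_closedBall, dist_eq_norm, add_sub_cancel_left, norm_smul,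
    Real.norm_of_nonneg hr.le, mul_le_mul_iff_right₀ hr]

theorem setLIntegral_aff (x : E) {r : ℝ} (hr : 0 < r) (R : ℝ) (Ψ : E → ℝ≥0∞) :
    ∫⁻ y in closedBall (0 : E) R, Ψ (x + r • y) =
      ENNReal.ofReal (r ^ finrank ℝ E)⁻¹ * ∫⁻ w in closedBall x (r * R), Ψ w := by
  rw [← lintegral_indicator measurableSet_closedBall,
    ← lintegral_indicator measurableSet_closedBall, ← lintegral_aff x hr]
  refine lintegral_congr fun y => ?_
  by_cases hy : y ∈ closedBall (0 : E) R
  · rw [indicator_of_mem hy, indicator_of_mem ((mem_aff x hr R y).2 hy)]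
  · rw [indicator_of_notMem hy, indicator_of_notMem (mt (mem_aff x hr R y).1 hy)]

theorem LI_aff {F : Type} [NormedAddCommGroup F] {h : E → F} (hh : LocallyIntegrable h volume)
    (x : E) {r : ℝ} (hr : 0 < r) : LocallyIntegrable (fun y => h (x + r • y)) volume := by
  have h1 := (locallyIntegrable_map_homeomorph (aff x hr) (f := h) (μ := volume)).1
  refine h1 ?_
  have h2 : Measure.map (aff x hr) volume = _ := map_aff x hr
  rw [h2]
  intro z
  obtain ⟨s, hs, hi⟩ := hh z
  refine ⟨s, hs, ?_⟩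
  rw [IntegrableOn, Measure.restrict_smul]
  exact Integrable.smul_measure hi ENNReal.ofReal_ne_top

theorem integrable_mul_test {B : Set E} {h φ : E → ℝ} (hh : LocallyIntegrable h volume)
    (hφ : Test B φ) : Integrable (fun w => h w * φ w) :=
  hh.integrable_smul_right_of_hasCompactSupport hφ.smooth.continuous hφ.cpt

theorem Test.integrable {B : Set E} {φ : E → ℝ} (hφ : Test B φ) : Integrable φ :=
  hφ.smooth.continuous.integrable_of_hasCompactSupport hφ.cpt

theorem integral_D_eq_zero {B : Set E} {φ : E → ℝ} (hφ : Test B φ) (e : E) :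
    ∫ w, D e φ w = 0 := by
  have := integral_mul_fderiv_eq_neg_fderiv_mul_of_integrable (μ := (volume : Measure E))
    (f := fun _ : E => (1 : ℝ)) (g := φ) (v := e) (by simp)
    (by simp only [one_mul]; exact (hφ.D e).integrable) (by simpa using hφ.integrable)
    (fun _ _ => differentiableAt_const _) (fun x _ => diff_of_smooth hφ.smooth x)
  simpa [D] using this

theorem integral_Lap_eq_zero {B : Set E} {φ : E → ℝ} (hφ : Test B φ) : ∫ w, Lap φ w = 0 := by
  unfold Lap
  rw [integral_finsetSum _ fun i _ => ((hφ.D _).D _).integrable]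
  exact Finset.sum_eq_zero fun i _ => integral_D_eq_zero (hφ.D _) _

/-- average of `h` against the kernel `κ` at scale `s` around `z` -/
noncomputable def av (κ : E → ℝ) (s : ℝ) (h : E → ℝ) (z : E) : ℝ := ∫ w, h w * sc κ s z w

theorem av_eq (κ : E → ℝ) {s : ℝ} (hs : 0 < s) (h : E → ℝ) (z : E) :
    av κ s h z = ∫ y, h (z + s • y) * κ y := by
  have := integral_aff z hs (fun w => h w * κ (s⁻¹ • (w - z)))
  simp only [add_sub_cancel_left, smul_smul, inv_mul_cancel₀ hs.ne', one_smul] at this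
  rw [this, ← integral_const_mul]
  unfold av sc
  refine integral_congr_ae (Eventually.of_forall fun w => ?_)
  ring

theorem hasDerivAt_sc {κ : E → ℝ} (hκ : ContDiff ℝ ∞ κ) {s : ℝ} (hs : 0 < s) (z w : E) :
    HasDerivAt (fun s => sc κ s z w) (s⁻¹ * sc (sharp κ) s z w) s := by
  have h1 : HasDerivAt (fun s : ℝ => s⁻¹ • (w - z)) ((-(s ^ 2)⁻¹) • (w - z)) s :=
    (hasDerivAt_inv hs.ne').smul_const _
  have h2 := (diff_of_smooth hκ _).hasFDerivAt.comp_hasDerivAt s h1
  have h3 : HasDerivAt (fun s : ℝ => (s ^ finrank ℝ E)⁻¹)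
      (-((finrank ℝ E : ℝ) * s ^ (finrank ℝ E - 1)) / (s ^ finrank ℝ E) ^ 2) s :=
    (hasDerivAt_pow _ s).inv (by positivity)
  have h4 := h3.mul h2
  have h5 : HasDerivAt (fun s => sc κ s z w) _ s := h4
  convert h5 using 1
  have h6 : (finrank ℝ E : ℝ) * s ^ (finrank ℝ E - 1) = finrank ℝ E * s ^ finrank ℝ E * s⁻¹ := by
    rcases Nat.eq_zero_or_pos (finrank ℝ E) with h | h
    · simp [h]
    · obtain ⟨k, hk⟩ : ∃ k, finrank ℝ E = k + 1 := ⟨_, (Nat.succ_pred_eq_of_pos h).symm⟩
      rw [hk]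
      simp only [add_tsub_cancel_right]
      field_simp
      ring
  rw [h6]
  simp only [sc, sharp, Function.comp, map_smul, smul_eq_mul]
  field_simp
  ring

theorem hasDerivAt_av {κ h : E → ℝ} (hκ : Test (closedBall 0 1) κ)
    (hh : LocallyIntegrable h volume) {s : ℝ} (hs : 0 < s) (z : E) :
    HasDerivAt (fun s => av κ s h z) (s⁻¹ * av (sharp κ) s h z) s := by
  obtain ⟨C, hC0, hC⟩ := hκ.sharp.bound
  have hnb : Ioo (s / 2) (2 * s) ∈ 𝓝 s := Ioo_mem_nhds (by linarith) (by linarith)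
  have key := hasDerivAt_integral_of_dominated_loc_of_deriv_le (μ := (volume : Measure E))
    (F := fun s w => h w * sc κ s z w) (F' := fun s w => h w * (s⁻¹ * sc (sharp κ) s z w))
    (bound := fun w => (closedBall z (2 * s)).indicator (fun w => ‖h w‖) w *
      ((s / 2)⁻¹ * (((s / 2) ^ finrank ℝ E)⁻¹ * C))) hnb
    (Eventually.of_forall fun t => hh.aestronglyMeasurable.mul
      (contDiff_sc hκ.smooth t z).continuous.aestronglyMeasurable)
    (integrable_mul_test hh (hκ.sc hs z))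
    (hh.aestronglyMeasurable.mul
      (continuous_const.mul (contDiff_sc hκ.sharp.smooth s z).continuous).aestronglyMeasurable)
    (Eventually.of_forall fun w t ht => ?_) ?_
    (Eventually.of_forall fun w t ht =>
      (hasDerivAt_sc hκ.smooth (by linarith [ht.1]) z w).const_mul (h w))
  · have h2 : ∫ w, h w * (s⁻¹ * sc (sharp κ) s z w) = s⁻¹ * av (sharp κ) s h z := by
      unfold av
      rw [← integral_const_mul]
      exact integral_congr_ae (Eventually.of_forall fun w => by ring)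
    rw [← h2]
    exact key.2
  · have ht0 : 0 < t := by linarith [ht.1]
    by_cases hw : w ∈ closedBall z (2 * s)
    · rw [indicator_of_mem hw, norm_mul, norm_mul]
      refine mul_le_mul_of_nonneg_left ?_ (norm_nonneg _)
      refine mul_le_mul ?_ ?_ (norm_nonneg _) (by positivity)
      · rw [norm_inv, Real.norm_of_nonneg ht0.le]
        exact inv_anti₀ (by linarith) ht.1.le
      · unfold sc
        rw [norm_mul]
        refine mul_le_mul ?_ (hC _) (norm_nonneg _) (by positivity)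
        rw [norm_inv, Real.norm_of_nonneg (by positivity)]
        exact inv_anti₀ (by positivity) (pow_le_pow_left₀ (by linarith) ht.1.le _)
    · rw [indicator_of_notMem hw, sc_zero hκ.sharp ht0
        (fun h' => hw (closedBall_subset_closedBall ht.2.le h'))]
      simp
  · refine Integrable.mul_const ?_ _
    rw [integrable_indicator_iff measurableSet_closedBall]
    exact (hh.integrableOn_isCompact (isCompact_closedBall _ _)).norm

theorem continuousOn_av {κ h : E → ℝ} (hκ : Test (closedBall 0 1) κ)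
    (hh : LocallyIntegrable h volume) (z : E) : ContinuousOn (fun s => av κ s h z) (Ioi 0) :=
  fun _ hs => (hasDerivAt_av hκ hh hs z).continuousAt.continuousWithinAt

theorem av_eq_conv (κ h : E → ℝ) (s : ℝ) :
    av κ s h = h ⋆[ContinuousLinearMap.mul ℝ ℝ, volume] (fun t => sc κ s 0 (-t)) := by
  funext z
  simp only [av, convolution_def, ContinuousLinearMap.mul_apply', sc, neg_sub, sub_zero]

theorem differentiable_av_and {κ h : E → ℝ} (hκ : Test (closedBall 0 1) κ)
    (hh : LocallyIntegrable h volume) {s : ℝ} (hs : 0 < s) (z : E) :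
    DifferentiableAt ℝ (av κ s h) z ∧
      ∀ e, D e (av κ s h) z = -(s⁻¹ * av (D e κ) s h z) := by
  have T := hκ.sc hs 0
  have hc : HasCompactSupport (fun t => sc κ s 0 (-t)) :=
    T.cpt.comp_homeomorph (Homeomorph.neg E)
  have hsm : ContDiff ℝ ∞ (fun t => sc κ s 0 (-t)) := T.smooth.comp contDiff_neg
  have h1 := hc.hasFDerivAt_convolution_right (ContinuousLinearMap.mul ℝ ℝ) hh
    (hsm.of_le (by simp)) z
  rw [← av_eq_conv] at h1
  refine ⟨h1.differentiableAt, fun e => ?_⟩
  unfold D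
  rw [h1.fderiv, convolution_precompR_apply _ hh (hc.fderiv ℝ)
    (hsm.continuous_fderiv (by simp))]
  have h2 : ∀ a : E, fderiv ℝ (fun t => sc κ s 0 (-t)) a e = -(s⁻¹ * sc (D e κ) s 0 (-a)) := by
    intro a
    have h3 := ((diff_of_smooth T.smooth (-a)).hasFDerivAt.comp a (hasFDerivAt_id a).neg)
    have h4 : HasFDerivAt (fun t => sc κ s 0 (-t)) _ a := h3
    rw [h4.fderiv]
    have h5 := congrFun (D_sc hκ.smooth s 0 e) (-a)
    rw [← h5]
    simp [D]
  simp only [h2, convolution_def, ContinuousLinearMap.mul_apply', av]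
  rw [← integral_const_mul, ← integral_neg]
  refine integral_congr_ae (Eventually.of_forall fun w => ?_)
  simp only [sc, neg_sub, sub_zero, D]
  ring

theorem differentiable_av {κ h : E → ℝ} (hκ : Test (closedBall 0 1) κ)
    (hh : LocallyIntegrable h volume) {s : ℝ} (hs : 0 < s) : Differentiable ℝ (av κ s h) :=
  fun z => (differentiable_av_and hκ hh hs z).1

theorem D_av {κ h : E → ℝ} (hκ : Test (closedBall 0 1) κ)
    (hh : LocallyIntegrable h volume) {s : ℝ} (hs : 0 < s) (e z : E) :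
    D e (av κ s h) z = -(s⁻¹ * av (D e κ) s h z) :=
  (differentiable_av_and hκ hh hs z).2 e

theorem av_sub_const {κ h : E → ℝ} (hκ : Test (closedBall 0 1) κ)
    (hh : LocallyIntegrable h volume) {s : ℝ} (hs : 0 < s) (z : E) (c : ℝ) :
    av κ s (fun w => h w - c) z = av κ s h z - c * ∫ y, κ y := by
  rw [av_eq κ hs, av_eq κ hs, ← integral_const_mul, ← integral_sub
    (integrable_mul_test (LI_aff hh z hs) hκ) (hκ.integrable.const_mul c)]
  exact integral_congr_ae (Eventually.of_forall fun w => by ring)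

theorem av_sub_ker {κ κ' h : E → ℝ} (hκ : Test (closedBall 0 1) κ)
    (hκ' : Test (closedBall 0 1) κ')
    (hh : LocallyIntegrable h volume) {s : ℝ} (hs : 0 < s) (z : E) :
    av (fun y => κ y - κ' y) s h z = av κ s h z - av κ' s h z := by
  rw [av_eq _ hs, av_eq κ hs, av_eq κ' hs, ← integral_sub
    (integrable_mul_test (LI_aff hh z hs) hκ) (integrable_mul_test (LI_aff hh z hs) hκ')]
  exact integral_congr_ae (Eventually.of_forall fun w => by ring)

/-- weak Laplacian on `B` -/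
def WL (B : Set E) (v F : E → ℝ) : Prop :=
  ∀ φ, Test B φ → ∫ w, v w * Lap φ w = ∫ w, F w * φ w

/-- weak directional derivative on `B` -/
def WD (B : Set E) (e : E) (v W : E → ℝ) : Prop :=
  ∀ φ, Test B φ → ∫ w, v w * D e φ w = -∫ w, W w * φ w

theorem WL.av {B : Set E} {v F κ : E → ℝ} (h : WL B v F) (hκ : Test (closedBall 0 1) κ)
    {s : ℝ} (hs : 0 < s) {z : E} (hz : closedBall z s ⊆ B) :
    av (Lap κ) s v z = s ^ 2 * av κ s F z := by
  have := h _ ((hκ.sc hs z).mono hz)
  rw [Lap_sc hκ.smooth] at this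
  unfold Pool.Agent.MP_7afc88_an.av
  rw [← this, ← integral_const_mul]
  refine integral_congr_ae (Eventually.of_forall fun w => ?_)
  field_simp

theorem WD.av {B : Set E} {e : E} {v W κ : E → ℝ} (h : WD B e v W)
    (hκ : Test (closedBall 0 1) κ) {s : ℝ} (hs : 0 < s) {z : E} (hz : closedBall z s ⊆ B) :
    av (D e κ) s v z = -(s * av κ s W z) := by
  have := h _ ((hκ.sc hs z).mono hz)
  rw [D_sc hκ.smooth] at this
  unfold Pool.Agent.MP_7afc88_an.av
  rw [← mul_neg, ← this, ← integral_const_mul]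
  refine integral_congr_ae (Eventually.of_forall fun w => ?_)
  field_simp

theorem mean_value {η ρ : E → ℝ} (K : Ker η ρ) {B : Set E} {v F : E → ℝ}
    (hv : LocallyIntegrable v volume) (hF : LocallyIntegrable F volume) (h : WL B v F)
    {ε r : ℝ} (hε : 0 < ε) (hεr : ε ≤ r) {z : E} (hz : closedBall z r ⊆ B) :
    av ρ r v z - av ρ ε v z = ∫ s in ε..r, s * av η s F z := by
  symm
  refine intervalIntegral.integral_eq_sub_of_hasDerivAt (f := fun s => av ρ s v z)
    (fun s hs => ?_) ?_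
  · rw [uIcc_of_le hεr] at hs
    have hs0 : 0 < s := hε.trans_le hs.1
    refine (hasDerivAt_av K.tρ hv hs0 z).congr_deriv ?_
    rw [← K.lap, h.av K.tη hs0 ((closedBall_subset_closedBall hs.2).trans hz)]
    field_simp
  · refine ContinuousOn.intervalIntegrable ?_
    rw [uIcc_of_le hεr]
    exact continuousOn_id.mul ((continuousOn_av K.tη hF z).mono fun s hs => hε.trans_le hs.1)

theorem grad_value {η ρ : E → ℝ} (K : Ker η ρ) {B : Set E} {v F : E → ℝ}
    (hv : LocallyIntegrable v volume) (hF : LocallyIntegrable F volume) (h : WL B v F)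
    {ε r : ℝ} (hε : 0 < ε) (hεr : ε ≤ r) {z : E} (hz : closedBall z r ⊆ B) (e : E) :
    r⁻¹ * av (D e ρ) r v z - ε⁻¹ * av (D e ρ) ε v z = ∫ s in ε..r, av (D e η) s F z := by
  symm
  refine intervalIntegral.integral_eq_sub_of_hasDerivAt (f := fun s => s⁻¹ * av (D e ρ) s v z)
    (fun s hs => ?_) ?_
  · rw [uIcc_of_le hεr] at hs
    have hs0 : 0 < s := hε.trans_le hs.1
    refine ((hasDerivAt_inv hs0.ne').mul (hasDerivAt_av (K.tρ.D e) hv hs0 z)).congr_deriv ?_
    have h1 := h.av (K.tη.D e) hs0 ((closedBall_subset_closedBall hs.2).trans hz)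
    rw [K.lapD, av_sub_ker (K.tρ.D e).sharp (K.tρ.D e) hv hs0] at h1
    field_simp
    linarith
  · refine ContinuousOn.intervalIntegrable ?_
    rw [uIcc_of_le hεr]
    exact (continuousOn_av (K.tη.D e) hF z).mono fun s hs => hε.trans_le hs.1

end Pool.Agent.MP_7afc88_an

end

-- part MP_7afc88_an.Bounds
section

open MeasureTheory Set Metric Filter Topology Laplacian Module
open scoped ContDiff InnerProductSpace ENNReal

set_option linter.unusedSectionVars false

namespace Pool.Agent.MP_7afc88_an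

variable {E : Type} [NormedAddCommGroup E] [InnerProductSpace ℝ E] [FiniteDimensional ℝ E]
  [MeasurableSpace E] [BorelSpace E]

/-- Lebesgue point, in rescaled form -/
def Leb {F : Type} [NormedAddCommGroup F] (h : E → F) (x : E) : Prop :=
  ∀ R : ℝ, 0 < R → Tendsto (fun r : ℝ => ∫⁻ y in closedBall (0 : E) R, ‖h (x + r • y) - h x‖ₑ)
    (𝓝[>] 0) (𝓝 0)

theorem ae_leb {F : Type} [NormedAddCommGroup F] {h : E → F}
    (hh : LocallyIntegrable h volume) : ∀ᵐ x, Leb h x := by
  filter_upwards [(Besicovitch.vitaliFamily (volume : Measure E)).ae_tendsto_lintegral_enorm_sub_div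
    hh] with x hx R hR
  have h1 := hx.comp (Besicovitch.tendsto_filterAt volume x)
  have h2 : Tendsto (fun r : ℝ => r * R) (𝓝[>] 0) (𝓝[>] 0) := by
    refine tendsto_nhdsWithin_iff.2 ⟨?_, ?_⟩
    · have : Tendsto (fun r : ℝ => r * R) (𝓝 0) (𝓝 (0 * R)) :=
        (continuous_id.mul continuous_const).tendsto 0
      rw [zero_mul] at this
      exact this.mono_left nhdsWithin_le_nhds
    · filter_upwards [self_mem_nhdsWithin] with r hr using mul_pos hr hR
  have h3 := ENNReal.Tendsto.const_mul (a := volume (closedBall (0 : E) R)) (h1.comp h2)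
    (Or.inr measure_closedBall_lt_top.ne)
  rw [mul_zero] at h3
  refine h3.congr' ?_
  filter_upwards [self_mem_nhdsWithin] with r hr
  have h4 := setLIntegral_aff x hr R (fun _ => 1)
  simp only [lintegral_const, Measure.restrict_apply_univ, one_mul] at h4
  rw [setLIntegral_aff x hr R (fun w => ‖h w - h x‖ₑ), h4]
  simp only [Function.comp]
  rw [mul_assoc, ENNReal.mul_div_cancel (measure_closedBall_pos _ _ (mul_pos hr hR)).ne'
    measure_closedBall_lt_top.ne]

theorem enorm_av_le (κ : E → ℝ) {s : ℝ} (hs : 0 < s) (h : E → ℝ) (z : E) :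
    ‖av κ s h z‖ₑ ≤ ∫⁻ y, ‖h (z + s • y)‖ₑ * ‖κ y‖ₑ := by
  rw [av_eq κ hs]
  refine (enorm_integral_le_lintegral_enorm _).trans (le_of_eq ?_)
  simp only [enorm_mul]

theorem lintegral_ker_le {κ : E → ℝ} {R : ℝ} (hκ : Test (closedBall 0 R) κ) {C : ℝ}
    (hC : ∀ y, |κ y| ≤ C) (Ψ : E → ℝ≥0∞) :
    ∫⁻ y, Ψ y * ‖κ y‖ₑ ≤ ENNReal.ofReal C * ∫⁻ y in closedBall (0 : E) R, Ψ y := by
  rw [← lintegral_const_mul' _ _ ENNReal.ofReal_ne_top,
    ← lintegral_indicator measurableSet_closedBall]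
  refine lintegral_mono fun y => ?_
  by_cases hy : y ∈ closedBall (0 : E) R
  · rw [indicator_of_mem hy, mul_comm]
    refine mul_le_mul_left ?_ _
    rw [Real.enorm_eq_ofReal_abs]
    exact ENNReal.ofReal_le_ofReal (hC y)
  · simp [hκ.zero hy]

theorem enorm_av_le' {κ : E → ℝ} (hκ : Test (closedBall 0 1) κ) {C : ℝ}
    (hC : ∀ y, |κ y| ≤ C) {s : ℝ} (hs : 0 < s) (h : E → ℝ) (z : E) :
    ‖av κ s h z‖ₑ ≤ ENNReal.ofReal C * ∫⁻ y in closedBall (0 : E) 1, ‖h (z + s • y)‖ₑ :=
  (enorm_av_le κ hs h z).trans (lintegral_ker_le hκ hC _)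

theorem tendsto_of_enorm_sub {ι : Type} {l : Filter ι} {a : ι → ℝ} {b : ℝ}
    (h : Tendsto (fun i => ‖a i - b‖ₑ) l (𝓝 0)) : Tendsto a l (𝓝 b) := by
  rw [tendsto_iff_norm_sub_tendsto_zero]
  have := (ENNReal.tendsto_toReal ENNReal.zero_ne_top).comp h
  simpa [Function.comp_def] using this

theorem Leb.tendsto_av {κ h : E → ℝ} (hκ : Test (closedBall 0 1) κ)
    (hh : LocallyIntegrable h volume) {x : E} (hx : Leb h x) :
    Tendsto (fun s => av κ s h x) (𝓝[>] 0) (𝓝 (h x * ∫ y, κ y)) := by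
  obtain ⟨C, -, hC⟩ := hκ.bound
  apply tendsto_of_enorm_sub
  have h1 := ENNReal.Tendsto.const_mul (a := ENNReal.ofReal C) (hx 1 one_pos)
    (Or.inr ENNReal.ofReal_ne_top)
  rw [mul_zero] at h1
  refine tendsto_of_tendsto_of_tendsto_of_le_of_le' tendsto_const_nhds h1
    (Eventually.of_forall fun _ => zero_le) ?_
  filter_upwards [self_mem_nhdsWithin] with s hs
  rw [← av_sub_const hκ hh hs]
  exact enorm_av_le' hκ hC hs _ _

/-- the error functional -/
noncomputable def Hf (κ h : E → ℝ) (r : ℝ) (z : E) : ℝ≥0∞ :=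
  ∫⁻ s in Ioc 0 r, ∫⁻ y, ‖h (z + s • y)‖ₑ * ‖κ y‖ₑ

theorem measurable_Hf_aux {κ h : E → ℝ} (hκ : Measurable κ) (hh : Measurable h) :
    Measurable (fun p : (E × ℝ) × E => ‖h (p.1.1 + p.1.2 • p.2)‖ₑ * ‖κ p.2‖ₑ) := by
  refine Measurable.mul (Measurable.enorm (hh.comp ?_)) (hκ.comp measurable_snd).enorm
  fun_prop

theorem measurable_Hf {κ h : E → ℝ} (hκ : Measurable κ) (hh : Measurable h) (r : ℝ) :
    Measurable (Hf κ h r) :=
  Measurable.lintegral_prod_right' (ν := volume.restrict (Ioc 0 r))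
    (f := fun p : E × ℝ => ∫⁻ y, ‖h (p.1 + p.2 • y)‖ₑ * ‖κ y‖ₑ)
    (measurable_Hf_aux hκ hh).lintegral_prod_right'

theorem lintegral_Hf_le {κ h : E → ℝ} (hκ : Test (closedBall 0 1) κ) (hh : Measurable h)
    {r : ℝ} {K K' : Set E} (hK : MeasurableSet K) (hK' : MeasurableSet K')
    (hsub : ∀ z ∈ K, closedBall z r ⊆ K') :
    ∫⁻ z in K, Hf κ h r z ≤ ENNReal.ofReal r * ((∫⁻ w in K', ‖h w‖ₑ) * ∫⁻ y, ‖κ y‖ₑ) := by
  have hm := measurable_Hf_aux hκ.smooth.continuous.measurable hh
  unfold Hf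
  rw [lintegral_lintegral_swap (hm.lintegral_prod_right').aemeasurable]
  have h1 : ∀ s ∈ Ioc 0 r, ∫⁻ z in K, ∫⁻ y, ‖h (z + s • y)‖ₑ * ‖κ y‖ₑ ≤
      (∫⁻ w in K', ‖h w‖ₑ) * ∫⁻ y, ‖κ y‖ₑ := by
    intro s hs
    have hm2 : Measurable (fun p : E × E => ‖h (p.1 + s • p.2)‖ₑ * ‖κ p.2‖ₑ) :=
      hm.comp (f := fun p : E × E => ((p.1, s), p.2)) (by fun_prop)
    rw [lintegral_lintegral_swap hm2.aemeasurable,
      ← lintegral_const_mul _ hκ.smooth.continuous.measurable.enorm]
    refine lintegral_mono fun y => ?_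
    by_cases hy : y ∈ closedBall (0 : E) 1
    · rw [lintegral_mul_const' _ _ enorm_ne_top]
      refine mul_le_mul_left ?_ _
      rw [← lintegral_indicator hK, ← lintegral_indicator hK',
        ← lintegral_add_right_eq_self (K'.indicator fun w => ‖h w‖ₑ) (s • y)]
      refine lintegral_mono fun z => ?_
      by_cases hz : z ∈ K
      · have : z + s • y ∈ K' := by
          apply hsub z hz
          have h3 := (mem_aff z hs.1 1 y).2 hy
          exact closedBall_subset_closedBall (by linarith [hs.2]) h3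
        rw [indicator_of_mem hz, indicator_of_mem this]
      · simp [hz]
    · simp [hκ.zero hy]
  refine (setLIntegral_mono' measurableSet_Ioc h1).trans (le_of_eq ?_)
  simp [mul_comm]

theorem enorm_interval_le (κ h : E → ℝ) {ε r : ℝ} (hε : 0 < ε) (hεr : ε ≤ r) (z : E)
    (a : ℝ → ℝ) (ha : ∀ s ∈ Ioc ε r, |a s| ≤ 1) :
    ‖∫ s in ε..r, a s * av κ s h z‖ₑ ≤ Hf κ h r z := by
  rw [intervalIntegral.integral_of_le hεr]
  refine (enorm_integral_le_lintegral_enorm _).trans ?_
  refine le_trans (setLIntegral_mono' measurableSet_Ioc fun s hs => ?_)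
    (lintegral_mono_set (Ioc_subset_Ioc_left hε.le))
  rw [enorm_mul]
  refine le_trans (mul_le_of_le_one_left' ?_) (enorm_av_le κ (hε.trans hs.1) h z)
  rw [Real.enorm_eq_ofReal_abs]
  exact ENNReal.ofReal_le_one.2 (ha s hs)

section
variable {η ρ : E → ℝ} (K : Ker η ρ) {B : Set E} {v F : E → ℝ}
  (hv : LocallyIntegrable v volume) (hF : LocallyIntegrable F volume) (h : WL B v F)
include K hv hF h

theorem value_bound {ε r : ℝ} (hε : 0 < ε) (hεr : ε ≤ r) (hr : r ≤ 1) {z : E}
    (hz : closedBall z r ⊆ B) : ‖av ρ r v z - av ρ ε v z‖ₑ ≤ Hf η F r z := by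
  rw [mean_value K hv hF h hε hεr hz]
  refine enorm_interval_le η F hε hεr z (fun s => s) fun s hs => ?_
  rw [abs_of_pos (hε.trans hs.1)]
  exact hs.2.trans hr

theorem value_bound_leb {r : ℝ} (hr0 : 0 < r) (hr : r ≤ 1) {z : E}
    (hz : closedBall z r ⊆ B) (hl : Leb v z) : ‖av ρ r v z - v z‖ₑ ≤ Hf η F r z := by
  have h1 := hl.tendsto_av K.tρ hv
  rw [K.one, mul_one] at h1
  have h2 := (continuous_enorm.tendsto _).comp (tendsto_const_nhds (x := av ρ r v z).sub h1)
  refine le_of_tendsto h2 ?_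
  filter_upwards [Ioc_mem_nhdsGT hr0] with ε hε
  exact value_bound K hv hF h hε.1 hε.2 hr hz

theorem grad_bound {ε r : ℝ} (hε : 0 < ε) (hεr : ε ≤ r) {z : E}
    (hz : closedBall z r ⊆ B) (e : E) (c : ℝ) :
    ‖r⁻¹ * av (D e ρ) r v z - ε⁻¹ * av (D e ρ) ε v z‖ₑ ≤ Hf (D e η) (fun w => F w - c) r z := by
  rw [grad_value K hv hF h hε hεr hz]
  have h1 : ∫ s in ε..r, av (D e η) s F z =
      ∫ s in ε..r, (fun _ => (1 : ℝ)) s * av (D e η) s (fun w => F w - c) z := by
    refine intervalIntegral.integral_congr fun s hs => ?_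
    rw [uIcc_of_le hεr] at hs
    simp only [av_sub_const (K.tη.D e) hF (hε.trans_le hs.1), integral_D_eq_zero K.tη]
    ring
  rw [h1]
  exact enorm_interval_le _ _ hε hεr z _ fun s _ => by simp

theorem grad_bound_leb {r : ℝ} (hr0 : 0 < r) {z : E}
    (hz : closedBall z r ⊆ B) {e : E} {W : E → ℝ} (hW : LocallyIntegrable W volume)
    (hD : WD B e v W) (hl : Leb W z) (c : ℝ) :
    ‖r⁻¹ * av (D e ρ) r v z + W z‖ₑ ≤ Hf (D e η) (fun w => F w - c) r z := by
  have h1 := hl.tendsto_av K.tρ hW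
  rw [K.one, mul_one] at h1
  have h2 := (continuous_enorm.tendsto _).comp
    (tendsto_const_nhds (x := r⁻¹ * av (D e ρ) r v z).add h1)
  refine le_of_tendsto h2 ?_
  filter_upwards [Ioc_mem_nhdsGT hr0] with ε hε
  have h3 := grad_bound K hv hF h hε.1 hε.2 hz e c
  rw [hD.av K.tρ hε.1 ((closedBall_subset_closedBall hε.2).trans hz)] at h3
  have h4 : r⁻¹ * av (D e ρ) r v z - ε⁻¹ * -(ε * av ρ ε W z) =
      r⁻¹ * av (D e ρ) r v z + av ρ ε W z := by
    have := hε.1.ne'
    field_simp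
    ring
  rw [h4] at h3
  exact h3

theorem quad_bound {x : E} (hB : B ∈ 𝓝 x) (hlv : Leb v x) (hlF : Leb F x) :
    ∃ M : ℝ, 0 ≤ M ∧ ∀ᶠ r in 𝓝[>] (0 : ℝ), |av ρ r v x - v x| ≤ M * r ^ 2 := by
  have h1 := hlF.tendsto_av K.tη hF
  set M := |F x * ∫ y, η y| + 1 with hM
  have h2 : ∀ᶠ s in 𝓝[>] (0 : ℝ), |av η s F x| ≤ M :=
    (h1.abs.eventually (eventually_le_nhds (by linarith : |F x * ∫ y, η y| < M)))
  obtain ⟨δ, hδ, hδ'⟩ := (nhdsGT_basis_Ioc (0 : ℝ)).eventually_iff.1 h2
  obtain ⟨δ2, hδ2, hδ2'⟩ := nhds_basis_closedBall.mem_iff.1 hB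
  refine ⟨M, by positivity, ?_⟩
  filter_upwards [Ioc_mem_nhdsGT hδ, Ioc_mem_nhdsGT hδ2] with r hr hr2
  have h3 := hlv.tendsto_av K.tρ hv
  rw [K.one, mul_one] at h3
  refine le_of_tendsto (tendsto_const_nhds (x := av ρ r v x).sub h3).abs ?_
  filter_upwards [Ioc_mem_nhdsGT hr.1] with ε hε
  rw [mean_value K hv hF h hε.1 hε.2 ((closedBall_subset_closedBall hr2.2).trans hδ2')]
  have h4 := intervalIntegral.norm_integral_le_of_norm_le_const (a := ε) (b := r)
    (f := fun s => s * av η s F x) (C := r * M) (fun s hs => ?_)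
  · rw [Real.norm_eq_abs, abs_of_nonneg (sub_nonneg.2 hε.2)] at h4
    have h5 : r * M * (r - ε) ≤ r * M * r :=
      mul_le_mul_of_nonneg_left (by linarith [hε.1]) (mul_nonneg hr.1.le (by positivity))
    nlinarith
  · rw [uIoc_of_le hε.2] at hs
    have hs0 : 0 < s := hε.1.trans hs.1
    rw [norm_mul, Real.norm_of_nonneg hs0.le]
    exact mul_le_mul hs.2 (hδ' ⟨hs0, hs.2.trans hr.2⟩) (norm_nonneg _) hr.1.le

end

theorem lower_bound {η ρ : E → ℝ} (K : Ker η ρ) : ∃ c : ℝ, 0 < c ∧ ∀ v : E → ℝ,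
    LocallyIntegrable v volume → (∀ w, 0 ≤ v w) → ∀ (s : ℝ) (x : E), 0 < s →
      ENNReal.ofReal c * ∫⁻ y in closedBall (0 : E) (1 / 2), ‖v (x + s • y)‖ₑ ≤
        ‖av ρ s v x‖ₑ := by
  obtain ⟨c, hc, hc'⟩ := K.low
  refine ⟨c, hc, fun v hv h0 s x hs => ?_⟩
  rw [av_eq ρ hs, Real.enorm_eq_ofReal (integral_nonneg fun y => mul_nonneg (h0 _) (K.nonneg y)),
    ofReal_integral_eq_lintegral_ofReal (integrable_mul_test (LI_aff hv x hs) K.tρ)
      (Eventually.of_forall fun y => mul_nonneg (h0 _) (K.nonneg y)),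
    ← lintegral_const_mul' _ _ ENNReal.ofReal_ne_top]
  refine le_trans (setLIntegral_mono' measurableSet_closedBall fun y hy => ?_)
    (setLIntegral_le_lintegral _ _)
  rw [Real.enorm_eq_ofReal (h0 _), ← ENNReal.ofReal_mul hc.le, mul_comm]
  exact ENNReal.ofReal_le_ofReal (mul_le_mul_of_nonneg_left (hc' y hy) (h0 _))

end Pool.Agent.MP_7afc88_an

end

-- part MP_7afc88_an.Chain
section

open MeasureTheory Set Metric Filter Topology Laplacian Module
open scoped ContDiff InnerProductSpace ENNReal NNReal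

set_option linter.unusedSectionVars false

namespace Pool.Agent.MP_7afc88_an

variable {E : Type} [NormedAddCommGroup E] [InnerProductSpace ℝ E] [FiniteDimensional ℝ E]
  [MeasurableSpace E] [BorelSpace E]

theorem abs_le_toReal {a : ℝ} {H : ℝ≥0∞} (h : ‖a‖ₑ ≤ H) (hH : H ≠ ⊤) : |a| ≤ H.toReal := by
  have := ENNReal.toReal_mono hH h
  simpa using this

theorem lintegral_lt_top_of_LI {F : Type} [NormedAddCommGroup F] {h : E → F}
    (hh : LocallyIntegrable h volume) {K : Set E} (hK : IsCompact K) :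
    ∫⁻ w in K, ‖h w‖ₑ < ⊤ :=
  (hh.integrableOn_isCompact hK).2

theorem Hf_real {κ h : E → ℝ} (hκ : Test (closedBall 0 1) κ) (hm : Measurable h)
    (hh : LocallyIntegrable h volume) {K : Set E} (hK : IsCompact K) (r : ℝ) :
    ∃ H : E → ℝ, Integrable H ∧ ∀ᵐ z, z ∈ K → ∀ a : ℝ, ‖a‖ₑ ≤ Hf κ h r z → |a| ≤ H z := by
  have h1 := lintegral_Hf_le hκ hm (r := r) hK.measurableSet
    (isClosed_cthickening (δ := r) (E := K)).measurableSet
    (fun z hz => closedBall_subset_cthickening hz r)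
  have h2 : ∫⁻ z in K, Hf κ h r z < ⊤ :=
    h1.trans_lt (ENNReal.mul_lt_top ENNReal.ofReal_lt_top
      (ENNReal.mul_lt_top (lintegral_lt_top_of_LI hh hK.cthickening) hκ.integrable.2))
  have hmH := measurable_Hf hκ.smooth.continuous.measurable hm r
  rw [← lintegral_indicator hK.measurableSet] at h2
  refine ⟨fun z => (K.indicator (Hf κ h r) z).toReal, integrable_toReal_of_lintegral_ne_top
    (hmH.indicator hK.measurableSet).aemeasurable h2.ne, ?_⟩
  filter_upwards [ae_lt_top (hmH.indicator hK.measurableSet) h2.ne] with z hz hzK a ha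
  rw [indicator_of_mem hzK] at hz ⊢
  exact abs_le_toReal ha hz.ne

theorem exists_dom {η ρ : E → ℝ} (K : Ker η ρ) {B : Set E} (hB : IsOpen B) {u f : E → ℝ}
    (hu : LocallyIntegrable u volume) (hf : LocallyIntegrable f volume) (hfm : Measurable f)
    (h : WL B u f) {S : Set E} (hS : IsCompact S) (hSB : S ⊆ B) (e : E) :
    ∃ r : ℝ, 0 < r ∧ (∀ z ∈ S, closedBall z r ⊆ B) ∧ ∃ Dv : E → ℝ, LocallyIntegrable Dv volume ∧
      ∀ᵐ z, z ∈ S → ∀ ε ∈ Ioc 0 r, |av ρ ε u z| ≤ Dv z ∧ |ε⁻¹ * av (D e ρ) ε u z| ≤ Dv z := by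
  obtain ⟨δ, hδ, hδB⟩ := hS.exists_cthickening_subset_open hB hSB
  set r := min δ 1 with hr
  have hr0 : 0 < r := lt_min hδ one_pos
  have hsub : ∀ z ∈ S, closedBall z r ⊆ B := fun z hz =>
    (closedBall_subset_closedBall (min_le_left _ _)).trans
      ((closedBall_subset_cthickening hz δ).trans hδB)
  obtain ⟨H1, hH1, hH1'⟩ := Hf_real K.tη hfm hf hS r
  obtain ⟨H2, hH2, hH2'⟩ := Hf_real (K.tη.D e) hfm hf hS r
  have c1 := (differentiable_av K.tρ hu hr0).continuous
  have c2 := (differentiable_av (K.tρ.D e) hu hr0).continuous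
  refine ⟨r, hr0, hsub, fun z => (|av ρ r u z| + |H1 z|) + (|r⁻¹ * av (D e ρ) r u z| + |H2 z|),
    ?_, ?_⟩
  · exact (c1.abs.locallyIntegrable.add hH1.abs.locallyIntegrable).add
      ((continuous_const.mul c2).abs.locallyIntegrable.add hH2.abs.locallyIntegrable)
  · filter_upwards [hH1', hH2'] with z h1 h2 hz ε hε
    have h3 := h1 hz _ (value_bound K hu hf h hε.1 hε.2 (min_le_right _ _) (hsub z hz))
    have h4 := grad_bound K hu hf h hε.1 hε.2 (hsub z hz) e 0
    simp only [sub_zero] at h4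
    have h5 := h2 hz _ h4
    have h6 := abs_sub_abs_le_abs_sub (av ρ ε u z) (av ρ r u z)
    have h7 := abs_sub_abs_le_abs_sub (ε⁻¹ * av (D e ρ) ε u z) (r⁻¹ * av (D e ρ) r u z)
    rw [abs_sub_comm] at h6 h7
    have h8 := le_abs_self (H1 z)
    have h9 := le_abs_self (H2 z)
    constructor
    · have := abs_nonneg (r⁻¹ * av (D e ρ) r u z)
      have := abs_nonneg (H2 z)
      linarith
    · have := abs_nonneg (av ρ r u z)
      have := abs_nonneg (H1 z)
      linarith

theorem smooth_ibp {η ρ : E → ℝ} (K : Ker η ρ) {u : E → ℝ} (hu : LocallyIntegrable u volume)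
    {ψ θ : ℝ → ℝ} (hψ : ∀ s, HasDerivAt ψ (θ s) s) (hθ : Continuous θ) {ε : ℝ} (hε : 0 < ε)
    {B : Set E} {φ : E → ℝ} (hφ : Test B φ) (e : E) :
    ∫ w, ψ (av ρ ε u w) * D e φ w =
      ∫ w, θ (av ρ ε u w) * (ε⁻¹ * av (D e ρ) ε u w) * φ w := by
  have d1 := differentiable_av K.tρ hu hε
  have c1 := d1.continuous
  have c2 := (differentiable_av (K.tρ.D e) hu hε).continuous
  have cψ : Continuous ψ := continuous_iff_continuousAt.2 fun s => (hψ s).continuousAt
  have h1 : ∀ w, HasFDerivAt (fun w => ψ (av ρ ε u w))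
      (θ (av ρ ε u w) • fderiv ℝ (av ρ ε u) w) w :=
    fun w => (hψ _).comp_hasFDerivAt w (d1 w).hasFDerivAt
  have h2 : ∀ w, fderiv ℝ (fun w => ψ (av ρ ε u w)) w e =
      -(θ (av ρ ε u w) * (ε⁻¹ * av (D e ρ) ε u w)) := by
    intro w
    rw [(h1 w).fderiv]
    have : fderiv ℝ (av ρ ε u) w e = -(ε⁻¹ * av (D e ρ) ε u w) := D_av K.tρ hu hε e w
    simp only [_root_.smul_apply, smul_eq_mul, this]
    ring
  have h3 := integral_mul_fderiv_eq_neg_fderiv_mul_of_integrable (μ := (volume : Measure E))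
    (f := fun w => ψ (av ρ ε u w)) (g := φ) (v := e)
    (by
      simp only [h2]
      exact integrable_mul_test
        (((hθ.comp c1).mul (continuous_const.mul c2)).neg.locallyIntegrable) hφ)
    (integrable_mul_test (cψ.comp c1).locallyIntegrable (hφ.D e))
    (integrable_mul_test (cψ.comp c1).locallyIntegrable hφ)
    (fun x _ => (h1 x).differentiableAt) (fun x _ => diff_of_smooth hφ.smooth x)
  simp only [h2, neg_mul, integral_neg, neg_neg] at h3
  exact h3

theorem abs_le_of_deriv {ψ θ : ℝ → ℝ} (hψ : ∀ s, HasDerivAt ψ (θ s) s) {M : ℝ}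
    (hM : ∀ s, |θ s| ≤ M) (s : ℝ) : |ψ s| ≤ |ψ 0| + M * |s| := by
  have h1 := convex_univ.norm_image_sub_le_of_norm_hasDerivWithin_le (f := ψ) (f' := θ) (C := M)
    (fun x _ => (hψ x).hasDerivWithinAt) (fun x _ => hM x) (mem_univ 0) (mem_univ s)
  simp only [Real.norm_eq_abs, sub_zero] at h1
  have h2 := abs_sub_abs_le_abs_sub (ψ s) (ψ 0)
  linarith

theorem chain_C1 {B : Set E} (hB : IsOpen B) {u f W : E → ℝ} {e : E}
    (hu : LocallyIntegrable u volume) (hf : LocallyIntegrable f volume) (hfm : Measurable f)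
    (hW : LocallyIntegrable W volume) (h : WL B u f) (hD : WD B e u W)
    {ψ θ : ℝ → ℝ} (hψ : ∀ s, HasDerivAt ψ (θ s) s) (hθ : Continuous θ) {M : ℝ}
    (hM : ∀ s, |θ s| ≤ M) : WD B e (fun w => ψ (u w)) (fun w => θ (u w) * W w) := by
  obtain ⟨η, ρ, K⟩ := exists_ker (E := E)
  intro φ hφ
  have hM0 : 0 ≤ M := (abs_nonneg _).trans (hM 0)
  obtain ⟨r, hr0, hsub, Dv, hDv, hdom⟩ := exists_dom K hB hu hf hfm h hφ.cpt hφ.sub e
  have cψ : Continuous ψ := continuous_iff_continuousAt.2 fun s => (hψ s).continuousAt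
  have hlu : ∀ᵐ z, Tendsto (fun ε => av ρ ε u z) (𝓝[>] 0) (𝓝 (u z)) := by
    filter_upwards [ae_leb hu] with z hz
    have := hz.tendsto_av K.tρ hu
    rwa [K.one, mul_one] at this
  have hlW : ∀ᵐ z, Tendsto (fun ε => av ρ ε W z) (𝓝[>] 0) (𝓝 (W z)) := by
    filter_upwards [ae_leb hW] with z hz
    have := hz.tendsto_av K.tρ hW
    rwa [K.one, mul_one] at this
  have t1 : Tendsto (fun ε => ∫ w, ψ (av ρ ε u w) * D e φ w) (𝓝[>] 0)
      (𝓝 (∫ w, ψ (u w) * D e φ w)) := by
    refine tendsto_integral_filter_of_dominated_convergence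
      (fun w => ‖(|ψ 0| + M * Dv w) * D e φ w‖) ?_ ?_ ?_ ?_
    · filter_upwards [self_mem_nhdsWithin] with ε hε
      exact ((cψ.comp (differentiable_av K.tρ hu hε).continuous).mul
        (hφ.D e).smooth.continuous).aestronglyMeasurable
    · filter_upwards [Ioc_mem_nhdsGT hr0] with ε hε
      filter_upwards [hdom] with z hz
      by_cases hzS : z ∈ tsupport φ
      · rw [norm_mul, norm_mul]
        refine mul_le_mul_of_nonneg_right ?_ (norm_nonneg _)
        refine ((abs_le_of_deriv hψ hM _).trans ?_).trans (le_abs_self _)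
        have := mul_le_mul_of_nonneg_left (hz hzS ε hε).1 hM0
        linarith
      · have : D e φ z = 0 :=
          image_eq_zero_of_notMem_tsupport fun h' => hzS (tsupport_D_subset φ e h')
        simp [this]
    · exact (integrable_mul_test ((locallyIntegrable_const _).add (hDv.smul M)) (hφ.D e)).norm
    · filter_upwards [hlu] with z hz
      exact ((cψ.tendsto _).comp hz).mul_const _
  have t2 : Tendsto (fun ε => ∫ w, θ (av ρ ε u w) * (ε⁻¹ * av (D e ρ) ε u w) * φ w) (𝓝[>] 0)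
      (𝓝 (∫ w, θ (u w) * (-W w) * φ w)) := by
    refine tendsto_integral_filter_of_dominated_convergence
      (fun w => ‖(M * Dv w) * φ w‖) ?_ ?_ ?_ ?_
    · filter_upwards [self_mem_nhdsWithin] with ε hε
      exact (((hθ.comp (differentiable_av K.tρ hu hε).continuous).mul
        (continuous_const.mul (differentiable_av (K.tρ.D e) hu hε).continuous)).mul
        hφ.smooth.continuous).aestronglyMeasurable
    · filter_upwards [Ioc_mem_nhdsGT hr0] with ε hε
      filter_upwards [hdom] with z hz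
      by_cases hzS : z ∈ tsupport φ
      · rw [norm_mul, norm_mul (M * Dv z)]
        refine mul_le_mul_of_nonneg_right ?_ (norm_nonneg _)
        rw [norm_mul]
        exact (mul_le_mul (hM _) (hz hzS ε hε).2 (abs_nonneg _) hM0).trans (le_abs_self _)
      · have : φ z = 0 := image_eq_zero_of_notMem_tsupport hzS
        simp [this]
    · exact (integrable_mul_test (hDv.smul M) hφ).norm
    · filter_upwards [hlu, hlW] with z hz hz'
      by_cases hzS : z ∈ tsupport φ
      · refine Tendsto.mul_const _ (((hθ.tendsto _).comp hz).mul (hz'.neg.congr' ?_))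
        filter_upwards [Ioc_mem_nhdsGT hr0] with ε hε
        rw [hD.av K.tρ hε.1 ((closedBall_subset_closedBall hε.2).trans (hsub z hzS))]
        have := hε.1.ne'
        field_simp
      · have : φ z = 0 := image_eq_zero_of_notMem_tsupport hzS
        simp [this]
  have t3 := tendsto_nhds_unique t1 (t2.congr' (by
    filter_upwards [self_mem_nhdsWithin] with ε hε
    exact (smooth_ibp K hu hψ hθ hε hφ e).symm))
  rw [t3, ← integral_neg]
  exact integral_congr_ae (Eventually.of_forall fun w => by ring)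

/-- the chain rule for the primitive of `θ` -/
def CR (B : Set E) (e : E) (u W : E → ℝ) (θ : ℝ → ℝ) : Prop :=
  WD B e (fun w => ∫ s in (0 : ℝ)..u w, θ s) (fun w => θ (u w) * W w)

theorem intervalIntegrable_of_bdd {θ : ℝ → ℝ} (hm : Measurable θ) {M : ℝ} (hM : ∀ s, |θ s| ≤ M)
    (a b : ℝ) : IntervalIntegrable θ volume a b :=
  (intervalIntegrable_const (c := M)).mono_fun' hm.aestronglyMeasurable
    (Eventually.of_forall fun s => hM s)

theorem CR_lim {B : Set E} {u W : E → ℝ} {e : E} (hu : LocallyIntegrable u volume)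
    (hum : Measurable u) (hW : LocallyIntegrable W volume) {θ : ℕ → ℝ → ℝ} {θ' : ℝ → ℝ} {M : ℝ}
    (hm : ∀ k, Measurable (θ k)) (hM : ∀ k s, |θ k s| ≤ M)
    (hl : ∀ s, Tendsto (fun k => θ k s) atTop (𝓝 (θ' s))) (h : ∀ k, CR B e u W (θ k)) :
    CR B e u W θ' := by
  intro φ hφ
  have hM0 : 0 ≤ M := (abs_nonneg _).trans (hM 0 0)
  have t1 : Tendsto (fun k => ∫ w, (∫ s in (0 : ℝ)..u w, θ k s) * D e φ w) atTop
      (𝓝 (∫ w, (∫ s in (0 : ℝ)..u w, θ' s) * D e φ w)) := by
    refine tendsto_integral_of_dominated_convergence (fun w => ‖(M * u w) * D e φ w‖) ?_ ?_ ?_ ?_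
    · intro k
      exact (((intervalIntegral.continuous_primitive (intervalIntegrable_of_bdd (hm k) (hM k))
        0).measurable.comp hum).mul (hφ.D e).smooth.continuous.measurable).aestronglyMeasurable
    · exact (integrable_mul_test (hu.smul M) (hφ.D e)).norm
    · intro k
      refine Eventually.of_forall fun w => ?_
      rw [norm_mul, norm_mul, norm_mul]
      refine mul_le_mul_of_nonneg_right ?_ (norm_nonneg _)
      have := intervalIntegral.norm_integral_le_of_norm_le_const (a := 0) (b := u w) (f := θ k)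
        (C := M) (fun s _ => hM k s)
      rw [sub_zero] at this
      rwa [Real.norm_of_nonneg hM0]
    · refine Eventually.of_forall fun w => Tendsto.mul_const _ ?_
      exact intervalIntegral.tendsto_integral_filter_of_dominated_convergence (fun _ => M)
        (Eventually.of_forall fun k => (hm k).aestronglyMeasurable)
        (Eventually.of_forall fun k => Eventually.of_forall fun s _ => hM k s)
        intervalIntegrable_const (Eventually.of_forall fun s _ => hl s)
  have t2 : Tendsto (fun k => ∫ w, (θ k (u w) * W w) * φ w) atTop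
      (𝓝 (∫ w, (θ' (u w) * W w) * φ w)) := by
    refine tendsto_integral_of_dominated_convergence (fun w => ‖(M * W w) * φ w‖) ?_ ?_ ?_ ?_
    · intro k
      exact ((((hm k).comp hum).aestronglyMeasurable.mul hW.aestronglyMeasurable).mul
        hφ.smooth.continuous.aestronglyMeasurable)
    · exact (integrable_mul_test (hW.smul M) hφ).norm
    · intro k
      refine Eventually.of_forall fun w => ?_
      simp only [norm_mul]
      refine mul_le_mul_of_nonneg_right (mul_le_mul_of_nonneg_right ?_ (norm_nonneg _))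
        (norm_nonneg _)
      exact (hM k _).trans (le_abs_self M)
    · exact Eventually.of_forall fun w => ((hl _).mul_const _).mul_const _
  exact tendsto_nhds_unique t1 (t2.neg.congr fun k => (h k φ hφ).symm)

section
variable {B : Set E} (hB : IsOpen B) {u f W : E → ℝ} {e : E}
  (hu : LocallyIntegrable u volume) (hum : Measurable u)
  (hf : LocallyIntegrable f volume) (hfm : Measurable f)
  (hW : LocallyIntegrable W volume) (h : WL B u f) (hD : WD B e u W)
include hB hu hum hf hfm hW h hD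

theorem CR_cont {θ : ℝ → ℝ} (hθ : Continuous θ) {M : ℝ} (hM : ∀ s, |θ s| ≤ M) :
    CR B e u W θ :=
  chain_C1 hB hu hf hfm hW h hD (fun s => (hθ.integral_hasStrictDerivAt 0 s).hasDerivAt) hθ hM

theorem CR_open {O : Set ℝ} (hO : IsOpen O) : CR B e u W (O.indicator fun _ => 1) := by
  have hpos : ∀ n : ℕ, (0 : ℝ) < 1 / ((n : ℝ) + 1) := fun n => Nat.one_div_pos_of_nat
  have hc : ∀ n : ℕ, Continuous fun s => 1 - (thickenedIndicator (hpos n) Oᶜ s : ℝ) := fun n =>
    continuous_const.sub (NNReal.continuous_coe.comp (thickenedIndicator (hpos n) Oᶜ).continuous)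
  have hb : ∀ (n : ℕ) (s : ℝ), |1 - (thickenedIndicator (hpos n) Oᶜ s : ℝ)| ≤ 1 := by
    intro n s
    have h1 : (thickenedIndicator (hpos n) Oᶜ s : ℝ) ≤ 1 := by
      exact_mod_cast thickenedIndicator_le_one (hpos n) Oᶜ s
    have h2 : 0 ≤ (thickenedIndicator (hpos n) Oᶜ s : ℝ) := NNReal.coe_nonneg _
    rw [abs_le]; constructor <;> linarith
  refine CR_lim hu hum hW (θ := fun n s => 1 - (thickenedIndicator (hpos n) Oᶜ s : ℝ))
    (fun n => (hc n).measurable) hb (fun s => ?_)
    (fun n => CR_cont hB hu hum hf hfm hW h hD (hc n) (hb n))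
  have h1 := tendsto_pi_nhds.1 (thickenedIndicator_tendsto_indicator_closure hpos
    tendsto_one_div_add_atTop_nhds_zero_nat Oᶜ) s
  rw [hO.isClosed_compl.closure_eq] at h1
  have h2 := (tendsto_const_nhds (x := (1 : ℝ))).sub (NNReal.tendsto_coe.2 h1)
  convert h2 using 2
  by_cases hs : s ∈ O <;> simp [hs]

theorem null_preimage {Z : Set ℝ} (hZ : volume Z = 0) : ∀ᵐ x, x ∈ B → u x ∈ Z → W x = 0 := by
  have h1 : ∀ n : ℕ, ∃ O : Set ℝ, O ⊇ Z ∧ IsOpen O ∧ volume O < ((n : ℝ≥0∞) + 1)⁻¹ := fun n =>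
    Z.exists_isOpen_lt_of_lt _ (by rw [hZ]; simp)
  choose O hZO hO hOv using h1
  set Z' := ⋂ n, O n with hZ'
  have hZ'm : MeasurableSet Z' := MeasurableSet.iInter fun n => (hO n).measurableSet
  have hZ'0 : volume Z' = 0 := by
    refine le_antisymm ?_ zero_le
    have h2 : Tendsto (fun n : ℕ => ((n : ℝ≥0∞) + 1)⁻¹) atTop (𝓝 0) := by
      have := ENNReal.tendsto_inv_nat_nhds_zero.comp (tendsto_add_atTop_nat 1)
      refine this.congr fun n => ?_
      simp
    exact ge_of_tendsto' h2 fun n => (measure_mono (iInter_subset O n)).trans (hOv n).le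
  have hopen : ∀ k : ℕ, IsOpen (⋂ n ∈ Iic k, O n) := fun k =>
    (finite_Iic k).isOpen_biInter fun n _ => hO n
  have h3 : CR B e u W (Z'.indicator fun _ => 1) := by
    refine CR_lim hu hum hW (θ := fun k => (⋂ n ∈ Iic k, O n).indicator fun _ => 1) (M := 1)
      (fun k => measurable_const.indicator (hopen k).measurableSet) (fun k s => ?_) (fun s => ?_)
      (fun k => CR_open hB hu hum hf hfm hW h hD (hopen k))
    · by_cases hs : s ∈ ⋂ n ∈ Iic k, O n
      · rw [indicator_of_mem hs]; simp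
      · rw [indicator_of_notMem hs]; simp
    · by_cases hs : s ∈ Z'
      · rw [indicator_of_mem hs]
        refine tendsto_const_nhds.congr fun k => ?_
        rw [indicator_of_mem (mem_iInter₂.2 fun n _ => mem_iInter.1 hs n)]
      · rw [indicator_of_notMem hs]
        obtain ⟨n, hn⟩ : ∃ n, s ∉ O n := by simpa [hZ'] using hs
        refine tendsto_const_nhds.congr' ?_
        filter_upwards [eventually_ge_atTop n] with k hk
        rw [indicator_of_notMem fun h' => hn (mem_iInter₂.1 h' n hk)]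
  have h4 : ∀ t : ℝ, ∫ s in (0 : ℝ)..t, Z'.indicator (fun _ => (1 : ℝ)) s = 0 := by
    intro t
    have : ∀ᵐ s : ℝ, s ∈ uIoc 0 t → Z'.indicator (fun _ => (1 : ℝ)) s = 0 := by
      filter_upwards [measure_eq_zero_iff_ae_notMem.1 hZ'0] with s hs _
      exact indicator_of_notMem hs _
    rw [intervalIntegral.integral_congr_ae this]
    simp
  have hLI : LocallyIntegrable (fun w => Z'.indicator (fun _ => (1 : ℝ)) (u w) * W w) volume := by
    refine hW.mono (((measurable_const.indicator hZ'm).comp hum).aestronglyMeasurable.mul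
      hW.aestronglyMeasurable) (Eventually.of_forall fun w => ?_)
    by_cases hw : u w ∈ Z' <;> simp [hw]
  have h5 := hB.ae_eq_zero_of_integral_contDiff_smul_eq_zero (hLI.locallyIntegrableOn B)
    (fun φ h1 h2 h3' => by
      have h6 := h3 φ ⟨h1, h2, h3'⟩
      simp only [h4, zero_mul, integral_zero, zero_eq_neg] at h6
      rw [← h6]
      exact integral_congr_ae (Eventually.of_forall fun w => by simp [mul_comm]))
  filter_upwards [h5] with x hx hxB hxZ
  have h7 := hx hxB
  rwa [indicator_of_mem (mem_iInter.2 fun n => hZO n hxZ), one_mul] at h7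

end

end Pool.Agent.MP_7afc88_an

end

-- part MP_7afc88_an.Convex
section

open MeasureTheory Set Metric Filter Topology Laplacian Module
open scoped ContDiff InnerProductSpace ENNReal NNReal

set_option linter.unusedSectionVars false

namespace Pool.Agent.MP_7afc88_an

/-- right derivative -/
noncomputable def Rd (Φ : ℝ → ℝ) (s : ℝ) : ℝ := derivWithin Φ (Ioi s) s

/-- left derivative -/
noncomputable def Ld (Φ : ℝ → ℝ) (s : ℝ) : ℝ := derivWithin Φ (Iio s) s

section
variable {Φ : ℝ → ℝ} (hΦ : ConvexOn ℝ univ Φ)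
include hΦ

theorem hasRd (s : ℝ) : HasDerivWithinAt Φ (Rd Φ s) (Ioi s) s :=
  hΦ.hasDerivWithinAt_rightDeriv_of_mem_interior (by simp)

theorem hasLd (s : ℝ) : HasDerivWithinAt Φ (Ld Φ s) (Iio s) s :=
  hΦ.hasDerivWithinAt_leftDeriv_of_mem_interior (by simp)

theorem Rd_mono : Monotone (Rd Φ) := by
  have := hΦ.monotoneOn_rightDeriv
  rw [interior_univ, monotoneOn_univ] at this
  exact this

theorem Ld_le_Rd (s : ℝ) : Ld Φ s ≤ Rd Φ s :=
  hΦ.leftDeriv_le_rightDeriv_of_mem_interior (by simp)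

theorem Rd_le_slope {s t : ℝ} (h : s < t) : Rd Φ s ≤ slope Φ s t :=
  hΦ.rightDeriv_le_slope_of_mem_interior (by simp) (mem_univ _) h

theorem slope_le_Ld {s t : ℝ} (h : s < t) : slope Φ s t ≤ Ld Φ t :=
  hΦ.slope_le_leftDeriv_of_mem_interior (mem_univ _) (by simp) h

theorem subgrad {t p : ℝ} (h1 : Ld Φ t ≤ p) (h2 : p ≤ Rd Φ t) (s : ℝ) :
    0 ≤ Φ s - Φ t - p * (s - t) := by
  rcases lt_trichotomy s t with h | rfl | h
  · have := (slope_le_Ld hΦ h).trans h1
    rw [slope_def_field, div_le_iff₀ (sub_pos.2 h)] at this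
    linarith
  · simp
  · have := h2.trans (Rd_le_slope hΦ h)
    rw [slope_def_field, le_div_iff₀ (sub_pos.2 h)] at this
    linarith

theorem hasDerivAt_of_Ld_eq {t : ℝ} (h : Ld Φ t = Rd Φ t) : HasDerivAt Φ (Rd Φ t) t := by
  have h1 := (hasLd hΦ t).Iic_of_Iio
  rw [h] at h1
  have h2 := h1.union (hasRd hΦ t).Ici_of_Ioi
  rwa [Iic_union_Ici, hasDerivWithinAt_univ] at h2

theorem Ld_eq_of_continuousAt {t : ℝ} (h : ContinuousAt (Rd Φ) t) : Ld Φ t = Rd Φ t := by
  refine le_antisymm (Ld_le_Rd hΦ t) ?_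
  refine le_of_tendsto (h.tendsto.mono_left (nhdsWithin_le_nhds (s := Iio t))) ?_
  filter_upwards [self_mem_nhdsWithin] with s hs
  exact (Rd_le_slope hΦ hs).trans (slope_le_Ld hΦ hs)

omit hΦ in
theorem deriv_eq_Rd {t : ℝ} (h : DifferentiableAt ℝ Φ t) : deriv Φ t = Rd Φ t :=
  (h.derivWithin (uniqueDiffWithinAt_Ioi t)).symm

theorem tendsto_quot (s : ℝ) :
    Tendsto (fun n : ℕ => (Φ (s + 1 / ((n : ℝ) + 1)) - Φ s) / (1 / ((n : ℝ) + 1))) atTop
      (𝓝 (Rd Φ s)) := by
  have h1 := (hasDerivWithinAt_iff_tendsto_slope' (s := Ioi s) (by simp)).1 (hasRd hΦ s)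
  have h2 : Tendsto (fun n : ℕ => s + 1 / ((n : ℝ) + 1)) atTop (𝓝[>] s) := by
    refine tendsto_nhdsWithin_iff.2 ⟨?_, Eventually.of_forall fun n => ?_⟩
    · simpa using tendsto_const_nhds (x := s).add
        (tendsto_one_div_add_atTop_nhds_zero_nat (𝕜 := ℝ))
    · exact lt_add_of_pos_right s Nat.one_div_pos_of_nat
  refine (h1.comp h2).congr fun n => ?_
  simp [slope_def_field]

omit hΦ in
theorem abs_quot_le {L : ℝ≥0} (hL : LipschitzWith L Φ) (n : ℕ) (s : ℝ) :
    |(Φ (s + 1 / ((n : ℝ) + 1)) - Φ s) / (1 / ((n : ℝ) + 1))| ≤ L := by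
  have hp : (0 : ℝ) < 1 / ((n : ℝ) + 1) := Nat.one_div_pos_of_nat
  rw [abs_div, abs_of_pos hp, div_le_iff₀ hp]
  have := hL.dist_le_mul (s + 1 / ((n : ℝ) + 1)) s
  rwa [Real.dist_eq, Real.dist_eq, add_sub_cancel_left, abs_of_pos hp] at this

theorem abs_Rd_le {L : ℝ≥0} (hL : LipschitzWith L Φ) (s : ℝ) : |Rd Φ s| ≤ L :=
  le_of_tendsto' (tendsto_quot hΦ s).abs fun n => abs_quot_le hL n s

theorem integral_Rd {L : ℝ≥0} (hL : LipschitzWith L Φ) (t : ℝ) :
    ∫ s in (0 : ℝ)..t, Rd Φ s = Φ t - Φ 0 :=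
  intervalIntegral.integral_eq_sub_of_hasDeriv_right hL.continuous.continuousOn
    (fun x _ => hasRd hΦ x) (Rd_mono hΦ).intervalIntegrable

end

variable {E : Type} [NormedAddCommGroup E] [InnerProductSpace ℝ E] [FiniteDimensional ℝ E]
  [MeasurableSpace E] [BorelSpace E]

theorem chain_convex {B : Set E} (hB : IsOpen B) {u f W : E → ℝ} {e : E}
    (hu : LocallyIntegrable u volume) (hum : Measurable u)
    (hf : LocallyIntegrable f volume) (hfm : Measurable f)
    (hW : LocallyIntegrable W volume) (h : WL B u f) (hD : WD B e u W)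
    {Φ : ℝ → ℝ} (hΦ : ConvexOn ℝ univ Φ) {L : ℝ≥0} (hL : LipschitzWith L Φ) :
    WD B e (fun w => Φ (u w) - Φ 0) (fun w => Rd Φ (u w) * W w) := by
  have hc : ∀ n : ℕ, Continuous
      fun s => (Φ (s + 1 / ((n : ℝ) + 1)) - Φ s) / (1 / ((n : ℝ) + 1)) := fun n =>
    ((hL.continuous.comp (continuous_id.add continuous_const)).sub hL.continuous).div_const _
  have h1 : CR B e u W (Rd Φ) :=
    CR_lim hu hum hW (fun n => (hc n).measurable) (abs_quot_le hL) (tendsto_quot hΦ)
      (fun n => CR_cont hB hu hum hf hfm hW h hD (hc n) (abs_quot_le hL n))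
  unfold CR at h1
  simpa only [integral_Rd hΦ hL] using h1

end Pool.Agent.MP_7afc88_an

end

-- part MP_7afc88_an.Blowup
section

open MeasureTheory Set Metric Filter Topology Laplacian Module
open scoped ContDiff InnerProductSpace ENNReal NNReal

set_option linter.unusedSectionVars false

namespace Pool.Agent.MP_7afc88_an

variable {E : Type} [NormedAddCommGroup E] [InnerProductSpace ℝ E] [FiniteDimensional ℝ E]
  [MeasurableSpace E] [BorelSpace E]

theorem ball_sub_ball {x z : E} {r : ℝ} (hz : z ∈ closedBall x r) :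
    closedBall z r ⊆ closedBall x (r * 2) :=
  closedBall_subset_closedBall' (by rw [mem_closedBall] at hz; linarith)

theorem shift_le {x z : E} {r : ℝ} (hr : 0 < r) (hz : z ∈ closedBall x r) (Ψ : E → ℝ≥0∞) :
    ∫⁻ y in closedBall (0 : E) 1, Ψ (z + r • y) ≤ ∫⁻ y in closedBall (0 : E) 2, Ψ (x + r • y) := by
  rw [setLIntegral_aff z hr, setLIntegral_aff x hr, mul_one]
  exact mul_le_mul_right (lintegral_mono_set (ball_sub_ball hz)) _

theorem lintegral_Hf_aff {κ h : E → ℝ} (hκ : Test (closedBall 0 1) κ) (hh : Measurable h)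
    (x : E) {r : ℝ} (hr : 0 < r) :
    ∫⁻ y in closedBall (0 : E) 1, Hf κ h r (x + r • y) ≤
      ENNReal.ofReal r * ((∫⁻ y in closedBall (0 : E) 2, ‖h (x + r • y)‖ₑ) * ∫⁻ y, ‖κ y‖ₑ) := by
  rw [setLIntegral_aff x hr, setLIntegral_aff x hr 2 (fun w => ‖h w‖ₑ), mul_one]
  refine (mul_le_mul_right (lintegral_Hf_le hκ hh measurableSet_closedBall measurableSet_closedBall
    (fun z hz => ball_sub_ball hz)) _).trans (le_of_eq ?_)
  ring

theorem exists_subseq {S : Set E} {e : ℝ → E → ℝ≥0∞}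
    (hm : ∀ r, 0 < r → AEMeasurable (e r) (volume.restrict S))
    (h : Tendsto (fun r => ∫⁻ y in S, e r y) (𝓝[>] 0) (𝓝 0)) :
    ∃ r : ℕ → ℝ, Tendsto r atTop (𝓝[>] 0) ∧
      ∀ᵐ y ∂(volume.restrict S), Tendsto (fun k => e (r k) y) atTop (𝓝 0) := by
  have h1 : ∀ k : ℕ, ∃ r : ℝ, r ∈ Ioc 0 (1 / ((k : ℝ) + 1)) ∧ ∫⁻ y in S, e r y ≤ 2⁻¹ ^ k := by
    intro k
    have h2 : ∀ᶠ r in 𝓝[>] (0 : ℝ), ∫⁻ y in S, e r y ≤ 2⁻¹ ^ k :=
      h.eventually (eventually_le_nhds (ENNReal.pow_pos (by simp) k))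
    exact ((show ∀ᶠ r in 𝓝[>] (0 : ℝ), r ∈ Ioc 0 (1 / ((k : ℝ) + 1)) from
      Ioc_mem_nhdsGT Nat.one_div_pos_of_nat).and h2).exists
  choose r hr hr' using h1
  refine ⟨r, tendsto_nhdsWithin_iff.2 ⟨?_, Eventually.of_forall fun k => (hr k).1⟩, ?_⟩
  · exact squeeze_zero (fun k => (hr k).1.le) (fun k => (hr k).2)
      tendsto_one_div_add_atTop_nhds_zero_nat
  · have h3 : ∫⁻ y in S, ∑' k, e (r k) y ≠ ⊤ := by
      rw [lintegral_tsum fun k => hm _ (hr k).1]
      refine ne_top_of_le_ne_top ?_ (ENNReal.tsum_le_tsum hr')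
      rw [ENNReal.tsum_geometric]
      simp
    filter_upwards [ae_lt_top' (AEMeasurable.tsum fun k => hm _ (hr k).1) h3] with y hy
    exact ENNReal.tendsto_atTop_zero_of_tsum_ne_top hy.ne

theorem gen_dct {S : Set E} (hS : volume S ≠ ⊤) {a : ℕ → E → ℝ} {a0 : E → ℝ}
    {H : ℕ → E → ℝ≥0∞} {M : ℝ≥0∞} (hM : M ≠ ⊤)
    (ham : ∀ k, AEMeasurable (fun y => ‖a k y - a0 y‖ₑ) (volume.restrict S))
    (hb : ∀ᶠ k in atTop, ∀ᵐ y ∂(volume.restrict S), ‖a k y - a0 y‖ₑ ≤ M + H k y)
    (hH : Tendsto (fun k => ∫⁻ y in S, H k y) atTop (𝓝 0))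
    (hl : ∀ᵐ y ∂(volume.restrict S), Tendsto (fun k => a k y) atTop (𝓝 (a0 y))) :
    Tendsto (fun k => ∫⁻ y in S, ‖a k y - a0 y‖ₑ) atTop (𝓝 0) := by
  have h1 : Tendsto (fun k => ∫⁻ y in S, min ‖a k y - a0 y‖ₑ M) atTop (𝓝 (∫⁻ _ in S, 0)) := by
    refine tendsto_lintegral_of_dominated_convergence' (fun _ => M)
      (fun k => (ham k).min aemeasurable_const)
      (fun k => Eventually.of_forall fun y => min_le_right _ _) ?_ ?_
    · simpa using ENNReal.mul_ne_top hM hS
    · filter_upwards [hl] with y hy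
      have h2 : Tendsto (fun k => ‖a k y - a0 y‖ₑ) atTop (𝓝 0) := by
        have := (continuous_enorm.tendsto _).comp (hy.sub_const (a0 y))
        simpa [Function.comp_def] using this
      exact tendsto_of_tendsto_of_tendsto_of_le_of_le tendsto_const_nhds h2
        (fun _ => zero_le) fun k => min_le_left _ _
  rw [lintegral_zero] at h1
  have h3 := h1.add hH
  rw [add_zero] at h3
  refine tendsto_of_tendsto_of_tendsto_of_le_of_le' tendsto_const_nhds h3
    (Eventually.of_forall fun _ => zero_le) ?_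
  filter_upwards [hb] with k hk
  rw [← lintegral_add_left' ((ham k).min aemeasurable_const)]
  refine lintegral_mono_ae ?_
  filter_upwards [hk] with y hy
  rcases le_total ‖a k y - a0 y‖ₑ M with h | h
  · rw [min_eq_left h]; exact le_self_add
  · rw [min_eq_right h]; exact hy

theorem tendsto_integral_test {κ : E → ℝ} (hκ : Test (closedBall 0 1) κ) {a : ℕ → E → ℝ}
    {a0 : E → ℝ} (ha : ∀ᶠ k in atTop, LocallyIntegrable (a k) volume)
    (ha0 : LocallyIntegrable a0 volume)
    (h : Tendsto (fun k => ∫⁻ y in closedBall (0 : E) 1, ‖a k y - a0 y‖ₑ) atTop (𝓝 0)) :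
    Tendsto (fun k => ∫ y, a k y * κ y) atTop (𝓝 (∫ y, a0 y * κ y)) := by
  obtain ⟨C, -, hC⟩ := hκ.bound
  apply tendsto_of_enorm_sub
  have h1 := ENNReal.Tendsto.const_mul (a := ENNReal.ofReal C) h (Or.inr ENNReal.ofReal_ne_top)
  rw [mul_zero] at h1
  refine tendsto_of_tendsto_of_tendsto_of_le_of_le' tendsto_const_nhds h1
    (Eventually.of_forall fun _ => zero_le) ?_
  filter_upwards [ha] with k hk
  rw [← integral_sub (integrable_mul_test hk hκ) (integrable_mul_test ha0 hκ)]
  refine (enorm_integral_le_lintegral_enorm _).trans ?_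
  simp only [← sub_mul, enorm_mul]
  exact lintegral_ker_le hκ hC _

theorem mass_bound {η ρ : E → ℝ} (K : Ker η ρ) {B : Set E} {v F : E → ℝ}
    (hv : LocallyIntegrable v volume) (hF : LocallyIntegrable F volume) (h : WL B v F)
    (h0 : ∀ w, 0 ≤ v w) {x : E} (hB : B ∈ 𝓝 x) (hlv : Leb v x) (hlF : Leb F x) (hx : v x = 0) :
    ∃ M : ℝ, 0 ≤ M ∧ ∀ᶠ r in 𝓝[>] (0 : ℝ),
      ∫⁻ y in closedBall (0 : E) 2, ‖v (x + r • y)‖ₑ ≤ ENNReal.ofReal (M * r ^ 2) := by
  obtain ⟨M, hM, hMr⟩ := quad_bound K hv hF h hB hlv hlF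
  obtain ⟨c, hc, hc'⟩ := lower_bound K
  have h2 : Tendsto (fun r : ℝ => 4 * r) (𝓝[>] 0) (𝓝[>] 0) := by
    refine tendsto_nhdsWithin_iff.2 ⟨?_, ?_⟩
    · have : Tendsto (fun r : ℝ => 4 * r) (𝓝 0) (𝓝 (4 * 0)) :=
        (continuous_const.mul continuous_id).tendsto 0
      rw [mul_zero] at this
      exact this.mono_left nhdsWithin_le_nhds
    · filter_upwards [self_mem_nhdsWithin] with r hr using mul_pos four_pos (mem_Ioi.1 hr)
  refine ⟨4 ^ finrank ℝ E * (c⁻¹ * (M * 16)), by positivity, ?_⟩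
  filter_upwards [h2.eventually hMr, self_mem_nhdsWithin] with r hr hr0
  have hr0' : (0 : ℝ) < r := hr0
  have h3 := hc' v hv h0 (4 * r) x (by positivity)
  rw [hx, sub_zero] at hr
  have h4 : ‖av ρ (4 * r) v x‖ₑ ≤ ENNReal.ofReal (M * (4 * r) ^ 2) := by
    rw [Real.enorm_eq_ofReal_abs]
    exact ENNReal.ofReal_le_ofReal hr
  have h5 := h3.trans h4
  rw [setLIntegral_aff x (by positivity) _ (fun w => ‖v w‖ₑ),
    show 4 * r * (1 / 2) = r * 2 by ring] at h5
  rw [setLIntegral_aff x hr0' _ (fun w => ‖v w‖ₑ)]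
  set I := ∫⁻ w in closedBall x (r * 2), ‖v w‖ₑ
  have h6 : ENNReal.ofReal (r ^ finrank ℝ E)⁻¹ * I = ENNReal.ofReal (4 ^ finrank ℝ E * c⁻¹) *
      (ENNReal.ofReal c * (ENNReal.ofReal ((4 * r) ^ finrank ℝ E)⁻¹ * I)) := by
    rw [← mul_assoc, ← mul_assoc, ← ENNReal.ofReal_mul (by positivity),
      ← ENNReal.ofReal_mul (by positivity)]
    congr 2
    rw [mul_pow]
    field_simp
  rw [h6]
  refine (mul_le_mul_right h5 _).trans (le_of_eq ?_)
  rw [← ENNReal.ofReal_mul (by positivity)]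
  congr 1
  ring

theorem LI_inner {W : E → E} (hW : LocallyIntegrable W volume) (e : E) :
    LocallyIntegrable (fun w => ⟪W w, e⟫_ℝ) volume := by
  refine (hW.smul ‖e‖).mono (hW.aestronglyMeasurable.inner_const) (Eventually.of_forall fun w => ?_)
  rw [Pi.smul_apply, norm_smul, norm_norm, mul_comm]
  exact norm_inner_le_norm _ _

theorem av_lap_eq {η : E → ℝ} (hη : Test (closedBall 0 1) η) {B : Set E} {v F : E → ℝ}
    {W : E → E} (hv : LocallyIntegrable v volume) (h : WL B v F)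
    (hD : ∀ e, WD B e v fun w => ⟪W w, e⟫_ℝ) {x : E} {r : ℝ} (hr : 0 < r)
    (hx : closedBall x r ⊆ B) :
    av η r F x = -∑ i, ∫ y, (r⁻¹ * ⟪W (x + r • y), stdOrthonormalBasis ℝ E i⟫_ℝ) *
      D (stdOrthonormalBasis ℝ E i) η y := by
  have h1 := h.av hη hr hx
  have h2 : av (Lap η) r v x = ∑ i, av (D (stdOrthonormalBasis ℝ E i)
      (D (stdOrthonormalBasis ℝ E i) η)) r v x := by
    simp only [av_eq _ hr, Lap, Finset.mul_sum]
    exact integral_finsetSum _ fun i _ => integrable_mul_test (LI_aff hv x hr) ((hη.D _).D _)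
  have h3 : ∀ e : E, av (D e (D e η)) r v x =
      -(r ^ 2 * ∫ y, (r⁻¹ * ⟪W (x + r • y), e⟫_ℝ) * D e η y) := by
    intro e
    rw [(hD e).av (hη.D e) hr hx, av_eq _ hr]
    simp only [mul_assoc, integral_const_mul]
    field_simp
  rw [h2] at h1
  simp only [h3, Finset.sum_neg_distrib, ← Finset.mul_sum] at h1
  have h4 : r ^ 2 ≠ 0 := by positivity
  apply mul_left_cancel₀ h4
  linarith

theorem blowup {η ρ : E → ℝ} (K : Ker η ρ) {B : Set E} {v F : E → ℝ} {W W0 : E → E}
    (hv : LocallyIntegrable v volume) (hF : LocallyIntegrable F volume) (hFm : Measurable F)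
    (hW : LocallyIntegrable W volume) (h : WL B v F) (hD : ∀ e, WD B e v fun w => ⟪W w, e⟫_ℝ)
    (h0 : ∀ w, 0 ≤ v w) {x : E} (hB : B ∈ 𝓝 x) (hlv : Leb v x) (hlF : Leb F x) (hx : v x = 0)
    (hW0 : Continuous W0) {r : ℕ → ℝ} (hr : Tendsto r atTop (𝓝[>] 0))
    (hlim : ∀ᵐ y ∂(volume.restrict (closedBall (0 : E) 1)),
      Tendsto (fun k => (r k)⁻¹ • W (x + r k • y)) atTop (𝓝 (W0 y))) :
    F x * ∫ y, η y = ∫ y, ⟪W0 y, y⟫_ℝ * ρ y := by
  obtain ⟨M, hM, hMr⟩ := mass_bound K hv hF h h0 hB hlv hlF hx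
  obtain ⟨δ, hδ, hδB⟩ := nhds_basis_closedBall.mem_iff.1 hB
  have hpos : ∀ᶠ k in atTop, r k ∈ Ioc 0 (δ / 2) := hr.eventually (Ioc_mem_nhdsGT (half_pos hδ))
  have key : ∀ e : E, Tendsto (fun k => ∫ y, ((r k)⁻¹ * ⟪W (x + r k • y), e⟫_ℝ) * D e η y) atTop
      (𝓝 (∫ y, ⟪W0 y, e⟫_ℝ * D e η y)) := by
    intro e
    have hWe := LI_inner hW e
    have c0 : Continuous fun y => ⟪W0 y, e⟫_ℝ := hW0.inner continuous_const
    obtain ⟨C, hC0, hC⟩ := (K.tρ.D e).bound
    obtain ⟨C', hC'⟩ := (isCompact_closedBall (0 : E) 1).exists_bound_of_continuousOn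
      c0.continuousOn
    refine tendsto_integral_test (K.tη.D e) ?_ c0.locallyIntegrable ?_
    · filter_upwards [hpos] with k hk
      exact (LI_aff hWe x hk.1).smul (r k)⁻¹
    refine gen_dct measure_closedBall_lt_top.ne
      (H := fun k y => ENNReal.ofReal (r k)⁻¹ *
        Hf (D e η) (fun w => F w - F x) (r k) (x + r k • y))
      (M := ENNReal.ofReal (C * M) + ENNReal.ofReal C') (by simp) (fun k => ?_) ?_ ?_ ?_
    · rcases eq_or_ne (r k) 0 with h1 | h1
      · simp only [h1, inv_zero, zero_mul]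
        exact (continuous_const.sub c0).measurable.enorm.aemeasurable
      · have h2 : Measure.QuasiMeasurePreserving (fun y : E => x + r k • y) volume volume := by
          refine ⟨by fun_prop, ?_⟩
          have h3 : (fun y : E => x + r k • y) = (fun y => x + y) ∘ (fun y : E => r k • y) := rfl
          rw [h3, ← Measure.map_map (measurable_const_add x) (measurable_const_smul _),
            Measure.map_addHaar_smul volume h1, Measure.map_smul, map_add_left_eq_self]
          exact Measure.smul_absolutelyContinuous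
        exact (((hWe.aestronglyMeasurable.comp_quasiMeasurePreserving h2).const_mul _).sub
          c0.aestronglyMeasurable).enorm.restrict
    · filter_upwards [hpos, hr.eventually hMr] with k hk hk2
      have hk0 := hk.1
      filter_upwards [ae_restrict_of_ae ((qmp_aff x hk.1).ae (ae_leb hWe)),
        ae_restrict_mem measurableSet_closedBall] with y hy hy1
      set z := x + r k • y with hz
      have hzx : z ∈ closedBall x (r k) := by
        have := (mem_aff x hk.1 1 y).2 hy1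
        rwa [mul_one] at this
      have h1 := grad_bound_leb K hv hF h hk.1 ((ball_sub_ball hzx).trans
        ((closedBall_subset_closedBall (by linarith [hk.2])).trans hδB)) hWe (hD e) hy (F x)
      have h2 : ‖av (D e ρ) (r k) v z‖ₑ ≤ ENNReal.ofReal (C * (M * r k ^ 2)) := by
        refine (enorm_av_le' (K.tρ.D e) hC hk.1 v z).trans ?_
        rw [ENNReal.ofReal_mul hC0]
        exact mul_le_mul_right ((shift_le hk.1 hzx fun w => ‖v w‖ₑ).trans hk2) _
      have h3 : (r k)⁻¹ * ⟪W z, e⟫_ℝ - ⟪W0 y, e⟫_ℝ =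
          (-((r k)⁻¹ ^ 2 * av (D e ρ) (r k) v z) - ⟪W0 y, e⟫_ℝ) +
            (r k)⁻¹ * ((r k)⁻¹ * av (D e ρ) (r k) v z + ⟪W z, e⟫_ℝ) := by ring
      rw [h3]
      refine (enorm_add_le _ _).trans (add_le_add (enorm_sub_le.trans (add_le_add ?_ ?_)) ?_)
      · rw [enorm_neg, enorm_mul, Real.enorm_eq_ofReal (by positivity)]
        refine (mul_le_mul_right h2 _).trans (le_of_eq ?_)
        rw [← ENNReal.ofReal_mul (by positivity)]
        congr 1
        field_simp
      · rw [← ofReal_norm]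
        exact ENNReal.ofReal_le_ofReal (hC' y hy1)
      · rw [enorm_mul, Real.enorm_eq_ofReal (by positivity)]
        exact mul_le_mul_right h1 _
    · have h1 := ENNReal.Tendsto.mul_const (b := ∫⁻ y, ‖D e η y‖ₑ) ((hlF 2 two_pos).comp hr)
        (Or.inr (K.tη.D e).integrable.2.ne)
      rw [zero_mul] at h1
      refine tendsto_of_tendsto_of_tendsto_of_le_of_le' tendsto_const_nhds h1
        (Eventually.of_forall fun _ => zero_le) ?_
      filter_upwards [hpos] with k hk
      rw [lintegral_const_mul' _ _ ENNReal.ofReal_ne_top]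
      refine (mul_le_mul_right (lintegral_Hf_aff (K.tη.D e) (hFm.sub_const _) x hk.1) _).trans
        (le_of_eq ?_)
      rw [← mul_assoc, ← ENNReal.ofReal_mul (inv_pos.2 hk.1).le, inv_mul_cancel₀ hk.1.ne']
      simp
    · filter_upwards [hlim] with y hy
      have := hy.inner (𝕜 := ℝ) (tendsto_const_nhds (x := e))
      simpa only [real_inner_smul_left] using this
  have t1 := (hlF.tendsto_av K.tη hF).comp hr
  have t2 := (tendsto_finsetSum Finset.univ fun i _ => key (stdOrthonormalBasis ℝ E i)).neg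
  have t3 := tendsto_nhds_unique t1 (t2.congr' (by
    filter_upwards [hpos] with k hk
    exact (av_lap_eq K.tη hv h hD hk.1
      ((closedBall_subset_closedBall (by linarith [hk.2])).trans hδB)).symm))
  rw [t3, ← integral_finsetSum _ fun i _ => integrable_mul_test
    (hW0.inner continuous_const).locallyIntegrable (K.tη.D _), ← integral_neg]
  refine integral_congr_ae (Eventually.of_forall fun y => ?_)
  simp only [K.grad, mul_neg, Finset.sum_neg_distrib, neg_neg, ← mul_assoc, ← Finset.sum_mul,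
    sum_inner_basis]

end Pool.Agent.MP_7afc88_an

end

-- part MP_7afc88_an.Core
section

open MeasureTheory Set Metric Filter Topology Laplacian Module
open scoped ContDiff InnerProductSpace ENNReal NNReal

set_option linter.unusedSectionVars false

namespace Pool.Agent.MP_7afc88_an

variable {E : Type} [NormedAddCommGroup E] [InnerProductSpace ℝ E] [FiniteDimensional ℝ E]
  [MeasurableSpace E] [BorelSpace E]

theorem value_bound_leb' {η ρ : E → ℝ} (K : Ker η ρ) {B : Set E} {v F : E → ℝ}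
    (hv : LocallyIntegrable v volume) (hF : LocallyIntegrable F volume) (h : WL B v F)
    {r : ℝ} (hr0 : 0 < r) {z : E} (hz : closedBall z r ⊆ B) (hl : Leb v z) :
    ‖r⁻¹ * (av ρ r v z - v z)‖ₑ ≤ Hf η F r z := by
  have h1 := hl.tendsto_av K.tρ hv
  rw [K.one, mul_one] at h1
  have h2 := (continuous_enorm.tendsto _).comp
    ((tendsto_const_nhds (x := av ρ r v z).sub h1).const_mul r⁻¹)
  refine le_of_tendsto h2 ?_
  filter_upwards [Ioc_mem_nhdsGT hr0] with ε hε
  simp only [Function.comp]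
  rw [mean_value K hv hF h hε.1 hε.2 hz, ← intervalIntegral.integral_const_mul]
  simp only [← mul_assoc]
  refine enorm_interval_le η F hε.1 hε.2 z (fun s => r⁻¹ * s) fun s hs => ?_
  have hs0 : 0 < s := hε.1.trans hs.1
  rw [abs_of_pos (by positivity), inv_mul_le_iff₀ hr0, mul_one]
  exact hs.2

theorem av_affine_bound {η ρ : E → ℝ} (K : Ker η ρ) {B : Set E} {u : E → ℝ} {G : E → E}
    (hu : LocallyIntegrable u volume) (hG : LocallyIntegrable G volume)
    (hD : ∀ e, WD B e u fun w => ⟪G w, e⟫_ℝ) {C : ℝ} (hC0 : 0 ≤ C) (hC : ∀ y, |ρ y| ≤ C)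
    {x : E} {r : ℝ} (hr : 0 < r) (hx : closedBall x (r * 2) ⊆ B) {y : E}
    (hy : y ∈ closedBall (0 : E) 1) :
    ‖r⁻¹ * (av ρ r u (x + r • y) - av ρ r u x) - ⟪G x, y⟫_ℝ‖ₑ ≤
      ENNReal.ofReal C * ∫⁻ y in closedBall (0 : E) 2, ‖G (x + r • y) - G x‖ₑ := by
  set I := ∫⁻ y in closedBall (0 : E) 2, ‖G (x + r • y) - G x‖ₑ with hI
  have hIt : I ≠ ⊤ := (lintegral_lt_top_of_LI ((LI_aff hG x hr).sub (locallyIntegrable_const _))
    (isCompact_closedBall 0 2)).ne
  have d1 := differentiable_av K.tρ hu hr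
  have h1 : ∀ z ∈ closedBall x r, HasFDerivWithinAt (fun z => av ρ r u z - ⟪G x, z⟫_ℝ)
      (fderiv ℝ (av ρ r u) z - innerSL ℝ (G x)) (closedBall x r) z := fun z _ =>
    ((d1 z).hasFDerivAt.sub (innerSL ℝ (G x)).hasFDerivAt).hasFDerivWithinAt
  have h2 : ∀ z ∈ closedBall x r, ‖fderiv ℝ (av ρ r u) z - innerSL ℝ (G x)‖ ≤ C * I.toReal := by
    intro z hz
    refine ContinuousLinearMap.opNorm_le_bound _ (by positivity) fun e => ?_
    have h3 : fderiv ℝ (av ρ r u) z e = -(r⁻¹ * av (D e ρ) r u z) := D_av K.tρ hu hr e z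
    rw [(hD e).av K.tρ hr ((ball_sub_ball hz).trans hx)] at h3
    have h4 := av_sub_const K.tρ (LI_inner hG e) hr z ⟪G x, e⟫_ℝ
    rw [K.one, mul_one] at h4
    have h5 : (fderiv ℝ (av ρ r u) z - innerSL ℝ (G x)) e =
        av ρ r (fun w => ⟪G w, e⟫_ℝ - ⟪G x, e⟫_ℝ) z := by
      rw [h4, _root_.sub_apply, h3, innerSL_apply_apply]
      have := hr.ne'
      field_simp
    rw [h5]
    have h6 : ‖av ρ r (fun w => ⟪G w, e⟫_ℝ - ⟪G x, e⟫_ℝ) z‖ₑ ≤ ENNReal.ofReal C * (I * ‖e‖ₑ) := by
      refine (enorm_av_le' K.tρ hC hr _ z).trans (mul_le_mul_right ?_ _)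
      refine le_trans ?_ (mul_le_mul_left (shift_le hr hz fun w => ‖G w - G x‖ₑ) _)
      rw [← lintegral_mul_const' _ _ enorm_ne_top]
      refine lintegral_mono fun w => ?_
      simp only [← inner_sub_left]
      rw [← ofReal_norm, ← ofReal_norm, ← ofReal_norm, ← ENNReal.ofReal_mul (norm_nonneg _)]
      exact ENNReal.ofReal_le_ofReal (norm_inner_le_norm _ _)
    have h7 := abs_le_toReal h6 (ENNReal.mul_ne_top ENNReal.ofReal_ne_top
      (ENNReal.mul_ne_top hIt enorm_ne_top))
    rw [ENNReal.toReal_mul, ENNReal.toReal_mul, ENNReal.toReal_ofReal hC0, toReal_enorm] at h7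
    rw [Real.norm_eq_abs, mul_assoc]
    exact h7
  have hz : x + r • y ∈ closedBall x r := by
    have := (mem_aff x hr 1 y).2 hy
    rwa [mul_one] at this
  have h8 := (convex_closedBall x r).norm_image_sub_le_of_norm_hasFDerivWithin_le h1 h2
    (mem_closedBall_self hr.le) hz
  have h9 : ‖x + r • y - x‖ ≤ r := by rwa [mem_closedBall, dist_eq_norm] at hz
  have h10 : r⁻¹ * (av ρ r u (x + r • y) - av ρ r u x) - ⟪G x, y⟫_ℝ =
      r⁻¹ * (av ρ r u (x + r • y) - ⟪G x, x + r • y⟫_ℝ - (av ρ r u x - ⟪G x, x⟫_ℝ)) := by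
    rw [inner_add_right, real_inner_smul_right]
    have := hr.ne'
    field_simp
    ring
  rw [h10, ← ofReal_norm, ← ENNReal.ofReal_toReal hIt, ← ENNReal.ofReal_mul hC0]
  refine ENNReal.ofReal_le_ofReal ?_
  rw [norm_mul, Real.norm_of_nonneg (inv_pos.2 hr).le, inv_mul_le_iff₀ hr]
  refine h8.trans ?_
  rw [mul_comm r]
  exact mul_le_mul_of_nonneg_left h9 (by positivity)

theorem tendsto_ofReal_zero : Tendsto (fun r : ℝ => ENNReal.ofReal r) (𝓝[>] 0) (𝓝 0) := by
  have := ENNReal.continuous_ofReal.tendsto 0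
  rw [ENNReal.ofReal_zero] at this
  exact this.mono_left nhdsWithin_le_nhds

theorem l1_diff {B : Set E} {u f : E → ℝ} {G : E → E}
    (hu : LocallyIntegrable u volume) (hf : LocallyIntegrable f volume) (hfm : Measurable f)
    (hG : LocallyIntegrable G volume) (h : WL B u f) (hD : ∀ e, WD B e u fun w => ⟪G w, e⟫_ℝ)
    {x : E} (hB : B ∈ 𝓝 x) (hlu : Leb u x) (hlf : Leb f x) (hlG : Leb G x) :
    Tendsto (fun r : ℝ => ∫⁻ y in closedBall (0 : E) 1,
      ‖r⁻¹ * (u (x + r • y) - u x) - ⟪G x, y⟫_ℝ‖ₑ) (𝓝[>] 0) (𝓝 0) := by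
  obtain ⟨η, ρ, K⟩ := exists_ker (E := E)
  obtain ⟨C, hC0, hC⟩ := K.tρ.bound
  obtain ⟨M, hM, hMr⟩ := quad_bound K hu hf h hB hlu hlf
  obtain ⟨δ, hδ, hδB⟩ := nhds_basis_closedBall.mem_iff.1 hB
  set V1 := volume (closedBall (0 : E) 1) with hV1
  set V2 := volume (closedBall (0 : E) 2) with hV2
  have hV1t : V1 ≠ ⊤ := measure_closedBall_lt_top.ne
  have hV2t : V2 ≠ ⊤ := measure_closedBall_lt_top.ne
  set N := ∫⁻ y, ‖η y‖ₑ with hN
  have hNt : N ≠ ⊤ := K.tη.integrable.2.ne
  have t1 : Tendsto (fun r : ℝ => ENNReal.ofReal r * ((1 + ‖f x‖ₑ * V2) * N)) (𝓝[>] 0) (𝓝 0) := by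
    have := ENNReal.Tendsto.mul_const (b := (1 + ‖f x‖ₑ * V2) * N) tendsto_ofReal_zero
      (Or.inr (by finiteness))
    rwa [zero_mul] at this
  have t2 : Tendsto (fun r : ℝ => (ENNReal.ofReal C *
      (∫⁻ y in closedBall (0 : E) 2, ‖G (x + r • y) - G x‖ₑ) +
        ENNReal.ofReal M * ENNReal.ofReal r) * V1) (𝓝[>] 0) (𝓝 0) := by
    have a1 := ENNReal.Tendsto.const_mul (a := ENNReal.ofReal C) (hlG 2 two_pos)
      (Or.inr ENNReal.ofReal_ne_top)
    have a2 := ENNReal.Tendsto.const_mul (a := ENNReal.ofReal M) tendsto_ofReal_zero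
      (Or.inr ENNReal.ofReal_ne_top)
    have a3 := ENNReal.Tendsto.mul_const (b := V1) (a1.add a2) (Or.inr hV1t)
    simpa using a3
  have t3 := t1.add t2
  rw [add_zero] at t3
  refine tendsto_of_tendsto_of_tendsto_of_le_of_le' tendsto_const_nhds t3
    (Eventually.of_forall fun _ => zero_le) ?_
  filter_upwards [Ioc_mem_nhdsGT (half_pos hδ), hMr,
    (hlf 2 two_pos).eventually (eventually_le_nhds zero_lt_one)] with r hr hr1 hr2
  have hr0 := hr.1
  have hsub : closedBall x (r * 2) ⊆ B :=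
    (closedBall_subset_closedBall (by linarith [hr.2])).trans hδB
  have b1 : ∫⁻ y in closedBall (0 : E) 1, Hf η f r (x + r • y) ≤
      ENNReal.ofReal r * ((1 + ‖f x‖ₑ * V2) * N) := by
    refine (lintegral_Hf_aff K.tη hfm x hr.1).trans (mul_le_mul_right (mul_le_mul_left ?_ _) _)
    refine le_trans ?_ (add_le_add_left hr2 _)
    rw [← setLIntegral_const, ← lintegral_add_right _ measurable_const]
    refine lintegral_mono fun y => ?_
    have : f (x + r • y) = (f (x + r • y) - f x) + f x := by ring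
    conv_lhs => rw [this]
    exact enorm_add_le _ _
  refine le_trans ?_ (add_le_add_left b1 _)
  rw [← setLIntegral_const, ← lintegral_add_right _ measurable_const]
  refine lintegral_mono_ae ?_
  filter_upwards [ae_restrict_of_ae ((qmp_aff x hr.1).ae (ae_leb hu)),
    ae_restrict_mem measurableSet_closedBall] with y hy hy1
  have hz : x + r • y ∈ closedBall x r := by
    have := (mem_aff x hr.1 1 y).2 hy1
    rwa [mul_one] at this
  have e1 := value_bound_leb' K hu hf h hr.1 ((ball_sub_ball hz).trans hsub) hy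
  have e2 := av_affine_bound K hu hG hD hC0 hC hr.1 hsub hy1
  have e3 : ‖r⁻¹ * (av ρ r u x - u x)‖ₑ ≤ ENNReal.ofReal M * ENNReal.ofReal r := by
    rw [← ENNReal.ofReal_mul hM, Real.enorm_eq_ofReal_abs]
    refine ENNReal.ofReal_le_ofReal ?_
    rw [abs_mul, abs_of_pos (inv_pos.2 hr0), inv_mul_le_iff₀ hr0]
    nlinarith
  have e4 : r⁻¹ * (u (x + r • y) - u x) - ⟪G x, y⟫_ℝ =
      -(r⁻¹ * (av ρ r u (x + r • y) - u (x + r • y))) +
        ((r⁻¹ * (av ρ r u (x + r • y) - av ρ r u x) - ⟪G x, y⟫_ℝ) + r⁻¹ * (av ρ r u x - u x)) := by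
    ring
  rw [e4]
  refine (enorm_add_le _ _).trans (add_le_add (by rwa [enorm_neg]) ?_)
  exact (enorm_add_le _ _).trans (add_le_add e2 e3)

theorem integral_quad {η ρ : E → ℝ} (K : Ker η ρ) (a : ℝ) (G : E) :
    ∫ y, ⟪(a * ⟪G, y⟫_ℝ) • G, y⟫_ℝ * ρ y = a * ‖G‖ ^ 2 * ∫ y, η y := by
  have c1 : Continuous fun y : E => ⟪G, y⟫_ℝ := continuous_const.inner continuous_id
  have h1 : ∀ y : E, fderiv ℝ (fun y : E => ⟪G, y⟫_ℝ) y G = ‖G‖ ^ 2 := by
    intro y
    have : HasFDerivAt (fun y : E => ⟪G, y⟫_ℝ) (innerSL ℝ G) y := (innerSL ℝ G).hasFDerivAt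
    rw [this.fderiv, innerSL_apply_apply, real_inner_self_eq_norm_sq]
  have h2 := integral_mul_fderiv_eq_neg_fderiv_mul_of_integrable (μ := (volume : Measure E))
    (f := fun y : E => ⟪G, y⟫_ℝ) (g := η) (v := G)
    (by simp only [h1]; exact K.tη.integrable.const_mul _)
    (integrable_mul_test c1.locallyIntegrable (K.tη.D G))
    (integrable_mul_test c1.locallyIntegrable K.tη)
    (fun x _ => (innerSL ℝ G).differentiableAt) (fun x _ => diff_of_smooth K.tη.smooth x)
  have h3 : ∀ y, fderiv ℝ η y G = -(⟪y, G⟫_ℝ * ρ y) := fun y => K.grad G y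
  simp only [h1, h3, mul_neg, integral_neg, neg_inj, integral_const_mul] at h2
  rw [mul_assoc, ← h2, ← integral_const_mul]
  refine integral_congr_ae (Eventually.of_forall fun y => ?_)
  simp only [real_inner_smul_left, real_inner_comm G y]
  ring

theorem LI_comp_lip {u : E → ℝ} (hu : LocallyIntegrable u volume) {Φ : ℝ → ℝ} {L : ℝ≥0}
    (hL : LipschitzWith L Φ) : LocallyIntegrable (fun w => Φ (u w)) volume := by
  have h1 : LocallyIntegrable (fun w => Φ (u w) - Φ 0) volume := by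
    refine (hu.smul (L : ℝ)).mono ((hL.continuous.comp_aestronglyMeasurable
      hu.aestronglyMeasurable).sub aestronglyMeasurable_const) (Eventually.of_forall fun w => ?_)
    have := hL.dist_le_mul (u w) 0
    rw [dist_eq_norm, dist_zero_right] at this
    rw [Pi.smul_apply, norm_smul, NNReal.norm_eq]
    exact this
  have h2 := h1.add (locallyIntegrable_const (Φ 0))
  refine h2.congr (Eventually.of_forall fun w => ?_)
  simp

section
variable {B : Set E} (hB : IsOpen B) {u f g : E → ℝ} {G : E → E}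
  (hu : LocallyIntegrable u volume) (hum : Measurable u)
  (hf : LocallyIntegrable f volume) (hfm : Measurable f)
  (hg : LocallyIntegrable g volume) (hgm : Measurable g)
  (hG : LocallyIntegrable G volume)
  {Φ : ℝ → ℝ} (hΦ : ConvexOn ℝ univ Φ) {L : ℝ≥0} (hL : LipschitzWith L Φ)
  (h1 : WL B u f) (h2 : WL B (fun w => Φ (u w)) g) (hD : ∀ e, WD B e u fun w => ⟪G w, e⟫_ℝ)
include hB hu hum hf hfm hg hgm hG hΦ hL h1 h2 hD

theorem point_identity {η ρ : E → ℝ} (K : Ker η ρ) {x : E} (hx : x ∈ B) (hlu : Leb u x)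
    (hlf : Leb f x) (hlg : Leb g x) {p : ℝ} (hp1 : Ld Φ (u x) ≤ p) (hp2 : p ≤ Rd Φ (u x))
    {W0 : E → E} (hW0 : Continuous W0) {r : ℕ → ℝ} (hr : Tendsto r atTop (𝓝[>] 0))
    (hlim : ∀ᵐ y ∂(volume.restrict (closedBall (0 : E) 1)),
      Tendsto (fun k => (r k)⁻¹ • ((Rd Φ (u (x + r k • y)) - p) • G (x + r k • y))) atTop
        (𝓝 (W0 y))) :
    (g x - p * f x) * ∫ y, η y = ∫ y, ⟪W0 y, y⟫_ℝ * ρ y := by
  have hΦu := LI_comp_lip hu hL
  have hv : LocallyIntegrable (fun w => Φ (u w) - Φ (u x) - p * (u w - u x)) volume :=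
    (hΦu.sub (locallyIntegrable_const _)).sub ((hu.sub (locallyIntegrable_const _)).smul p)
  have hRm : Measurable fun w => Rd Φ (u w) := (Rd_mono hΦ).measurable.comp hum
  have hW : LocallyIntegrable (fun w => (Rd Φ (u w) - p) • G w) volume := by
    refine (hG.smul ((L : ℝ) + |p|)).mono ((hRm.sub_const p).aestronglyMeasurable.smul
      hG.aestronglyMeasurable) (Eventually.of_forall fun w => ?_)
    rw [Pi.smul_apply, norm_smul, norm_smul]
    refine mul_le_mul_of_nonneg_right ?_ (norm_nonneg _)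
    refine le_trans ?_ (le_abs_self _)
    exact (abs_sub _ _).trans (add_le_add_left (abs_Rd_le hΦ hL _) _)
  refine blowup K (B := B) (v := fun w => Φ (u w) - Φ (u x) - p * (u w - u x))
    (F := fun w => g w - p * f w) (W := fun w => (Rd Φ (u w) - p) • G w) hv (hg.sub (hf.smul p))
    (hgm.sub (hfm.const_mul p)) hW ?_ ?_ (fun w => subgrad hΦ hp1 hp2 _) (hB.mem_nhds hx) ?_ ?_
    (by simp) hW0 hr hlim
  · intro φ hφ
    have a1 := h1 φ hφ
    have a2 := h2 φ hφ
    have a3 := integral_Lap_eq_zero hφ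
    have i1 := integrable_mul_test hu hφ.Lap
    have i2 := integrable_mul_test hΦu hφ.Lap
    have i3 := hφ.Lap.integrable
    have e1 : ∀ w, (Φ (u w) - Φ (u x) - p * (u w - u x)) * Lap φ w =
        Φ (u w) * Lap φ w - p * (u w * Lap φ w) + (p * u x - Φ (u x)) * Lap φ w := fun w => by ring
    have e2 : ∀ w, (g w - p * f w) * φ w = g w * φ w - p * (f w * φ w) := fun w => by ring
    simp only [e1, e2]
    simp only at a2
    have i6 : Integrable fun w => Φ (u w) * Lap φ w - p * (u w * Lap φ w) :=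
      i2.sub (i1.const_mul p)
    rw [integral_add i6 (i3.const_mul _), integral_sub i2 (i1.const_mul p),
      integral_sub (integrable_mul_test hg hφ) ((integrable_mul_test hf hφ).const_mul p),
      integral_const_mul, integral_const_mul, integral_const_mul, a1, a2, a3]
    ring
  · intro e φ hφ
    have a1 := hD e φ hφ
    have a2 := chain_convex hB hu hum hf hfm (LI_inner hG e) h1 (hD e) hΦ hL φ hφ
    have a3 := integral_D_eq_zero hφ e
    have i1 := integrable_mul_test hu (hφ.D e)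
    have i2 := integrable_mul_test (hΦu.sub (locallyIntegrable_const (Φ 0))) (hφ.D e)
    have i3 := (hφ.D e).integrable
    have i4 := integrable_mul_test (LI_inner hG e) hφ
    have i5 : Integrable fun w => Rd Φ (u w) * ⟪G w, e⟫_ℝ * φ w := by
      simp only [mul_assoc]
      exact i4.bdd_mul (c := L) hRm.aestronglyMeasurable
        (Eventually.of_forall fun w => abs_Rd_le hΦ hL _)
    have e1 : ∀ w, (Φ (u w) - Φ (u x) - p * (u w - u x)) * D e φ w =
        (Φ (u w) - Φ 0) * D e φ w - p * (u w * D e φ w) + (p * u x - Φ (u x) + Φ 0) * D e φ w :=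
      fun w => by ring
    have e2 : ∀ w, ⟪(Rd Φ (u w) - p) • G w, e⟫_ℝ * φ w =
        Rd Φ (u w) * ⟪G w, e⟫_ℝ * φ w - p * (⟪G w, e⟫_ℝ * φ w) := fun w => by
      rw [real_inner_smul_left]; ring
    simp only [e1, e2]
    simp only [Pi.sub_apply] at i2
    simp only at a1 a2
    have i6 : Integrable fun w => (Φ (u w) - Φ 0) * D e φ w - p * (u w * D e φ w) :=
      i2.sub (i1.const_mul p)
    rw [integral_add i6 (i3.const_mul _), integral_sub i2 (i1.const_mul p),
      integral_sub i5 (i4.const_mul p),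
      integral_const_mul, integral_const_mul, integral_const_mul, a1, a2, a3]
    ring
  · intro R hR
    have t1 := ENNReal.Tendsto.const_mul (a := ENNReal.ofReal (L + |p|)) (hlu R hR)
      (Or.inr ENNReal.ofReal_ne_top)
    rw [mul_zero] at t1
    refine tendsto_of_tendsto_of_tendsto_of_le_of_le tendsto_const_nhds t1
      (fun _ => zero_le) fun s => ?_
    simp only
    rw [← lintegral_const_mul' _ _ ENNReal.ofReal_ne_top]
    refine lintegral_mono fun y => ?_
    simp only [sub_self, mul_zero, sub_zero]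
    rw [← ofReal_norm, ← ofReal_norm, ← ENNReal.ofReal_mul (by positivity)]
    refine ENNReal.ofReal_le_ofReal ((norm_sub_le _ _).trans ?_)
    have := hL.dist_le_mul (u (x + s • y)) (u x)
    rw [dist_eq_norm, dist_eq_norm] at this
    rw [norm_mul, add_mul]
    exact add_le_add this le_rfl
  · intro R hR
    have t1 := ENNReal.Tendsto.const_mul (a := ‖p‖ₑ) (hlf R hR) (Or.inr enorm_ne_top)
    have t2 := (hlg R hR).add t1
    rw [mul_zero, add_zero] at t2
    refine tendsto_of_tendsto_of_tendsto_of_le_of_le tendsto_const_nhds t2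
      (fun _ => zero_le) fun s => ?_
    simp only
    have hm : Measurable fun y : E => ‖g (x + s • y) - g x‖ₑ :=
      ((hgm.comp (by fun_prop)).sub_const _).enorm
    rw [← lintegral_const_mul' _ _ enorm_ne_top, ← lintegral_add_left hm]
    refine lintegral_mono fun y => ?_
    have : g (x + s • y) - p * f (x + s • y) - (g x - p * f x) =
        (g (x + s • y) - g x) - p * (f (x + s • y) - f x) := by ring
    simp only
    rw [this, ← enorm_mul]
    exact enorm_sub_le

theorem core (hGm : Measurable G) : ∀ᵐ x, x ∈ B →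
    (G x = 0 → ∀ p, Ld Φ (u x) ≤ p → p ≤ Rd Φ (u x) → g x = p * f x) ∧
    (G x ≠ 0 → ∃ a, HasDerivAt (Rd Φ) a (u x) ∧ g x = Rd Φ (u x) * f x + a * ‖G x‖ ^ 2) := by
  obtain ⟨η, ρ, K⟩ := exists_ker (E := E)
  have hS : MeasurableSet {w | G w ≠ 0} := (hGm (measurableSet_singleton 0)).compl
  have hχ : LocallyIntegrable ({w | G w ≠ 0}.indicator fun _ => (1 : ℝ)) volume :=
    (locallyIntegrable_const 1).indicator hS
  have hZ : volume {t | ¬ DifferentiableAt ℝ (Rd Φ) t} = 0 := (Rd_mono hΦ).ae_differentiableAt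
  have hn : ∀ᵐ x, ∀ i, x ∈ B → u x ∈ {t | ¬ DifferentiableAt ℝ (Rd Φ) t} →
      ⟪G x, stdOrthonormalBasis ℝ E i⟫_ℝ = 0 :=
    ae_all_iff.2 fun i => null_preimage hB hu hum hf hfm (LI_inner hG _) h1 (hD _) hZ
  filter_upwards [ae_leb hu, ae_leb hf, ae_leb hg, ae_leb hG, ae_leb hχ, hn]
    with x hlu hlf hlg hlG hlχ hx hxB
  refine ⟨fun hG0 p hp1 hp2 => ?_, fun hG0 => ?_⟩
  · obtain ⟨r, hr, hlim⟩ := exists_subseq (S := closedBall (0 : E) 1) (fun s hs =>
      ((((measurable_const.indicator hS).comp (by fun_prop)).sub_const _).enorm.aemeasurable))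
      (hlχ 1 one_pos)
    have := point_identity hB hu hum hf hfm hg hgm hG hΦ hL h1 h2 hD K hxB hlu hlf hlg hp1 hp2
      (W0 := fun _ => 0) continuous_const hr (by
        filter_upwards [hlim] with y hy
        refine tendsto_const_nhds.congr' ?_
        filter_upwards [hy.eventually (eventually_lt_nhds zero_lt_one)] with k hk
        have : G (x + r k • y) = 0 := by
          by_contra hne
          simp only [Function.comp] at hk
          rw [indicator_of_mem (show x + r k • y ∈ {w | G w ≠ 0} from hne),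
            indicator_of_notMem (show x ∉ {w | G w ≠ 0} from fun h => h hG0)] at hk
          simp at hk
        simp [this])
    simp only [inner_zero_left, zero_mul, integral_zero, mul_eq_zero, K.pos.ne', or_false] at this
    linarith
  · have hd : DifferentiableAt ℝ (Rd Φ) (u x) := by
      by_contra hnd
      apply hG0
      rw [← (stdOrthonormalBasis ℝ E).sum_repr' (G x)]
      refine Finset.sum_eq_zero fun i _ => ?_
      rw [real_inner_comm, hx i hxB hnd, zero_smul]
    set a := deriv (Rd Φ) (u x) with ha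
    refine ⟨a, hd.hasDerivAt, ?_⟩
    have t1 := (l1_diff hu hf hfm hG h1 hD (hB.mem_nhds hxB) hlu hlf hlG).add (hlG 1 one_pos)
    rw [add_zero] at t1
    have m1 : ∀ s : ℝ, Measurable fun y : E => ‖s⁻¹ * (u (x + s • y) - u x) - ⟪G x, y⟫_ℝ‖ₑ :=
      fun s => ((((hum.comp (by fun_prop)).sub_const _).const_mul _).sub
        (continuous_const.inner continuous_id).measurable).enorm
    have m2 : ∀ s : ℝ, Measurable fun y : E => ‖G (x + s • y) - G x‖ₑ :=
      fun s => ((hGm.comp (by fun_prop)).sub_const _).enorm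
    simp only [← lintegral_add_left (m1 _)] at t1
    obtain ⟨r, hr, hlim⟩ := exists_subseq (S := closedBall (0 : E) 1)
      (fun s _ => ((m1 s).add (m2 s)).aemeasurable) t1
    have := point_identity hB hu hum hf hfm hg hgm hG hΦ hL h1 h2 hD K hxB hlu hlf hlg
      (Ld_le_Rd hΦ _) le_rfl (W0 := fun y => (a * ⟪G x, y⟫_ℝ) • G x)
      ((continuous_const.mul (continuous_const.inner continuous_id)).smul continuous_const) hr (by
        filter_upwards [hlim] with y hy
        simp only [Pi.add_apply] at hy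
        have l1 : Tendsto (fun k => (r k)⁻¹ * (u (x + r k • y) - u x)) atTop (𝓝 ⟪G x, y⟫_ℝ) :=
          tendsto_of_enorm_sub (tendsto_of_tendsto_of_tendsto_of_le_of_le tendsto_const_nhds hy
            (fun _ => zero_le) fun _ => le_self_add)
        have l2 : Tendsto (fun k => G (x + r k • y)) atTop (𝓝 (G x)) := by
          rw [tendsto_iff_norm_sub_tendsto_zero]
          have := (ENNReal.tendsto_toReal ENNReal.zero_ne_top).comp
            (tendsto_of_tendsto_of_tendsto_of_le_of_le tendsto_const_nhds hy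
            (fun _ => zero_le) fun _ => le_add_self)
          simpa [Function.comp_def] using this
        have hr0 : Tendsto r atTop (𝓝 0) := hr.mono_right nhdsWithin_le_nhds
        have hrp : ∀ᶠ k in atTop, 0 < r k := hr.eventually self_mem_nhdsWithin
        have l3 : Tendsto (fun k => u (x + r k • y)) atTop (𝓝 (u x)) := by
          have := (hr0.mul l1).add_const (u x)
          rw [zero_mul, zero_add] at this
          refine this.congr' ?_
          filter_upwards [hrp] with k hk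
          field_simp
          ring
        have l4 := (hd.hasDerivAt.isLittleO.comp_tendsto l3)
        have l5 : (fun k => (r k)⁻¹ * (u (x + r k • y) - u x)) =O[atTop] fun _ => (1 : ℝ) :=
          l1.isBigO_one ℝ
        have l6 : (fun k => (r k)⁻¹ * (Rd Φ (u (x + r k • y)) - Rd Φ (u x) -
            (u (x + r k • y) - u x) • a)) =o[atTop] fun _ => (1 : ℝ) :=
          ((Asymptotics.isBigO_refl (fun k => (r k)⁻¹) atTop).mul_isLittleO l4).trans_isBigO l5
        have l7 := ((Asymptotics.isLittleO_one_iff ℝ).1 l6).add (l1.const_mul a)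
        rw [zero_add] at l7
        refine (l7.smul l2).congr fun k => ?_
        rw [smul_smul]
        congr 1
        simp only [smul_eq_mul]
        ring)
    rw [integral_quad K] at this
    have := mul_right_cancel₀ K.pos.ne' this
    linarith

end

end Pool.Agent.MP_7afc88_an

end

-- part MP_7afc88_an.Exist
section

open MeasureTheory Set Metric Filter Topology Laplacian Module
open scoped ContDiff InnerProductSpace ENNReal NNReal

set_option linter.unusedSectionVars false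

namespace Pool.Agent.MP_7afc88_an

variable {E : Type} [NormedAddCommGroup E] [InnerProductSpace ℝ E] [FiniteDimensional ℝ E]
  [MeasurableSpace E] [BorelSpace E]

theorem ae_grad_limit {η ρ : E → ℝ} (K : Ker η ρ) {B : Set E} {u f : E → ℝ}
    (hu : LocallyIntegrable u volume) (hf : LocallyIntegrable f volume) (hfm : Measurable f)
    (h : WL B u f) {S : Set E} (hS : IsCompact S) {r : ℝ} (hr : 0 < r)
    (hsub : ∀ z ∈ S, closedBall z r ⊆ B) (e : E) :
    ∀ᵐ z, z ∈ S → ∃ l, Tendsto (fun ε => ε⁻¹ * av (D e ρ) ε u z) (𝓝[>] 0) (𝓝 l) := by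
  have hκ := K.tη.D e
  have h1 := lintegral_Hf_le hκ hfm (r := r) hS.measurableSet
    (isClosed_cthickening (δ := r) (E := S)).measurableSet
    (fun z hz => closedBall_subset_cthickening hz r)
  have h2 : ∫⁻ z in S, Hf (D e η) f r z < ⊤ :=
    h1.trans_lt (ENNReal.mul_lt_top ENNReal.ofReal_lt_top
      (ENNReal.mul_lt_top (lintegral_lt_top_of_LI hf hS.cthickening) hκ.integrable.2))
  have hmH := measurable_Hf hκ.smooth.continuous.measurable hfm r
  have h3 := (ae_restrict_iff' hS.measurableSet).1 (ae_lt_top hmH h2.ne)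
  filter_upwards [h3] with z hz hzS
  have h4 : IntegrableOn (fun s => av (D e η) s f z) (Ioc 0 r) := by
    refine ⟨((continuousOn_av hκ hf z).mono Ioc_subset_Ioi_self).aestronglyMeasurable
      measurableSet_Ioc, lt_of_le_of_lt ?_ (hz hzS)⟩
    exact setLIntegral_mono' measurableSet_Ioc fun s hs => enorm_av_le _ hs.1 _ _
  have h5 : IntegrableOn (fun s => av (D e η) s f z) (uIcc 0 r) := by
    rw [uIcc_of_le hr.le, integrableOn_Icc_iff_integrableOn_Ioc]
    exact h4
  have h6 := intervalIntegral.continuousOn_primitive_interval_left h5 0 left_mem_uIcc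
  rw [uIcc_of_le hr.le] at h6
  have h7 : Tendsto (fun x => ∫ s in x..r, av (D e η) s f z) (𝓝[>] 0)
      (𝓝 (∫ s in (0 : ℝ)..r, av (D e η) s f z)) :=
    h6.tendsto.mono_left (le_inf nhdsWithin_le_nhds (le_principal_iff.2 (Icc_mem_nhdsGT hr)))
  refine ⟨_, ((tendsto_const_nhds (x := r⁻¹ * av (D e ρ) r u z)).sub h7).congr' ?_⟩
  filter_upwards [Ioc_mem_nhdsGT hr] with ε hε
  rw [← grad_value K hu hf h hε.1 hε.2 (hsub z hzS)]
  ring

theorem exists_dir {B : Set E} (hB : IsOpen B) {u f : E → ℝ}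
    (hu : LocallyIntegrable u volume) (hf : LocallyIntegrable f volume) (hfm : Measurable f)
    (h : WL B u f) (e : E) : ∃ W : E → ℝ, LocallyIntegrableOn W B volume ∧ WD B e u W := by
  obtain ⟨η, ρ, K⟩ := exists_ker (E := E)
  set W : E → ℝ := fun z => limUnder (𝓝[>] (0 : ℝ)) fun ε => ε⁻¹ * av (D e ρ) ε u z with hW
  have hseq : Tendsto (fun n : ℕ => 1 / ((n : ℝ) + 1)) atTop (𝓝[>] 0) :=
    tendsto_nhdsWithin_iff.2 ⟨tendsto_one_div_add_atTop_nhds_zero_nat,
      Eventually.of_forall fun n => mem_Ioi.2 Nat.one_div_pos_of_nat⟩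
  have key : ∀ S : Set E, IsCompact S → S ⊆ B → ∃ r : ℝ, 0 < r ∧ ∃ Dv : E → ℝ,
      LocallyIntegrable Dv volume ∧ ∀ᵐ z, z ∈ S →
        (∀ ε ∈ Ioc 0 r, |av ρ ε u z| ≤ Dv z ∧ |ε⁻¹ * av (D e ρ) ε u z| ≤ Dv z) ∧
        Tendsto (fun ε => ε⁻¹ * av (D e ρ) ε u z) (𝓝[>] 0) (𝓝 (W z)) := by
    intro S hS hSB
    obtain ⟨r, hr0, hsub, Dv, hDv, hdom⟩ := exists_dom K hB hu hf hfm h hS hSB e
    refine ⟨r, hr0, Dv, hDv, ?_⟩
    filter_upwards [hdom, ae_grad_limit K hu hf hfm h hS hr0 hsub e] with z h1 h2 hz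
    exact ⟨h1 hz, tendsto_nhds_limUnder (h2 hz)⟩
  refine ⟨fun z => -W z, LocallyIntegrableOn.neg ?_, fun φ hφ => ?_⟩
  · rw [locallyIntegrableOn_iff hB.isLocallyClosed]
    intro S hSB hS
    obtain ⟨r, hr0, Dv, hDv, hae⟩ := key S hS hSB
    have hae' := (ae_restrict_iff' hS.measurableSet).2 hae
    refine (hDv.integrableOn_isCompact hS).mono' ?_ ?_
    · refine aestronglyMeasurable_of_tendsto_ae atTop
        (f := fun (n : ℕ) z => (1 / ((n : ℝ) + 1))⁻¹ * av (D e ρ) (1 / ((n : ℝ) + 1)) u z)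
        (fun n => (continuous_const.mul (differentiable_av (K.tρ.D e) hu
          Nat.one_div_pos_of_nat).continuous).aestronglyMeasurable) ?_
      filter_upwards [hae'] with z hz using hz.2.comp hseq
    · filter_upwards [hae'] with z hz
      refine le_of_tendsto hz.2.abs ?_
      filter_upwards [Ioc_mem_nhdsGT hr0] with ε hε using (hz.1 ε hε).2
  · obtain ⟨r, hr0, Dv, hDv, hae⟩ := key _ hφ.cpt hφ.sub
    have hlu : ∀ᵐ z, Tendsto (fun ε => av ρ ε u z) (𝓝[>] 0) (𝓝 (u z)) := by
      filter_upwards [ae_leb hu] with z hz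
      have := hz.tendsto_av K.tρ hu
      rwa [K.one, mul_one] at this
    have t1 : Tendsto (fun ε => ∫ w, av ρ ε u w * D e φ w) (𝓝[>] 0)
        (𝓝 (∫ w, u w * D e φ w)) := by
      refine tendsto_integral_filter_of_dominated_convergence
        (fun w => ‖Dv w * D e φ w‖) ?_ ?_ ?_ ?_
      · filter_upwards [self_mem_nhdsWithin] with ε hε
        exact ((differentiable_av K.tρ hu hε).continuous.mul
          (hφ.D e).smooth.continuous).aestronglyMeasurable
      · filter_upwards [Ioc_mem_nhdsGT hr0] with ε hε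
        filter_upwards [hae] with z hz
        by_cases hzS : z ∈ tsupport φ
        · rw [norm_mul, norm_mul]
          exact mul_le_mul_of_nonneg_right (((hz hzS).1 ε hε).1.trans (le_abs_self _))
            (norm_nonneg _)
        · have : D e φ z = 0 :=
            image_eq_zero_of_notMem_tsupport fun h' => hzS (tsupport_D_subset φ e h')
          simp [this]
      · exact (integrable_mul_test hDv (hφ.D e)).norm
      · filter_upwards [hlu] with z hz using hz.mul_const _
    have t2 : Tendsto (fun ε => ∫ w, (ε⁻¹ * av (D e ρ) ε u w) * φ w) (𝓝[>] 0)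
        (𝓝 (∫ w, W w * φ w)) := by
      refine tendsto_integral_filter_of_dominated_convergence
        (fun w => ‖Dv w * φ w‖) ?_ ?_ ?_ ?_
      · filter_upwards [self_mem_nhdsWithin] with ε hε
        exact ((continuous_const.mul (differentiable_av (K.tρ.D e) hu hε).continuous).mul
          hφ.smooth.continuous).aestronglyMeasurable
      · filter_upwards [Ioc_mem_nhdsGT hr0] with ε hε
        filter_upwards [hae] with z hz
        by_cases hzS : z ∈ tsupport φ
        · rw [norm_mul, norm_mul (Dv z)]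
          exact mul_le_mul_of_nonneg_right (((hz hzS).1 ε hε).2.trans (le_abs_self _))
            (norm_nonneg _)
        · have : φ z = 0 := image_eq_zero_of_notMem_tsupport hzS
          simp [this]
      · exact (integrable_mul_test hDv hφ).norm
      · filter_upwards [hae] with z hz
        by_cases hzS : z ∈ tsupport φ
        · exact (hz hzS).2.mul_const _
        · have : φ z = 0 := image_eq_zero_of_notMem_tsupport hzS
          simp [this]
    have t3 := tendsto_nhds_unique t1 (t2.congr' (by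
      filter_upwards [self_mem_nhdsWithin] with ε hε
      have := smooth_ibp K hu (ψ := fun s => s) (θ := fun _ => 1) (fun s => hasDerivAt_id s)
        continuous_const hε hφ e
      simp only [one_mul] at this
      exact this.symm))
    rw [t3, ← integral_neg]
    exact integral_congr_ae (Eventually.of_forall fun w => by ring)

theorem integrable_mul_test_on {B : Set E} {h φ : E → ℝ} (hh : LocallyIntegrableOn h B volume)
    (hφ : Test B φ) : Integrable (fun w => h w * φ w) := by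
  have h1 : IntegrableOn (fun w => h w * φ w) (tsupport φ) :=
    (hh.integrableOn_compact_subset hφ.sub hφ.cpt).mul_continuousOn
      hφ.smooth.continuous.continuousOn hφ.cpt
  refine (integrableOn_iff_integrable_of_support_subset fun w hw => ?_).1 h1
  by_contra hw'
  exact hw (by simp [image_eq_zero_of_notMem_tsupport hw'])

theorem exists_grad {B : Set E} (hB : IsOpen B) {u f : E → ℝ}
    (hu : LocallyIntegrable u volume) (hf : LocallyIntegrable f volume) (hfm : Measurable f)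
    (h : WL B u f) :
    ∃ G : E → E, LocallyIntegrableOn G B volume ∧ ∀ e, WD B e u fun w => ⟪G w, e⟫_ℝ := by
  choose W hW hWD using fun i => exists_dir hB hu hf hfm h (stdOrthonormalBasis ℝ E i)
  refine ⟨fun w => ∑ i, W i w • stdOrthonormalBasis ℝ E i, ?_, fun e φ hφ => ?_⟩
  · rw [locallyIntegrableOn_iff hB.isLocallyClosed]
    intro S hSB hS
    exact integrable_finsetSum _ fun i _ =>
      ((hW i).integrableOn_compact_subset hSB hS).smul_const _
  · have h1 : ∀ w, u w * D e φ w =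
        ∑ i, ⟪stdOrthonormalBasis ℝ E i, e⟫_ℝ * (u w * D (stdOrthonormalBasis ℝ E i) φ w) := by
      intro w
      have h8 := congrArg (fderiv ℝ φ w) ((stdOrthonormalBasis ℝ E).sum_repr' e)
      unfold D
      rw [← h8, map_sum, Finset.mul_sum]
      refine Finset.sum_congr rfl fun i _ => ?_
      rw [map_smul, smul_eq_mul]
      ring
    have h2 : ∀ w, ⟪∑ i, W i w • stdOrthonormalBasis ℝ E i, e⟫_ℝ * φ w =
        ∑ i, ⟪stdOrthonormalBasis ℝ E i, e⟫_ℝ * (W i w * φ w) := by
      intro w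
      rw [sum_inner, Finset.sum_mul]
      refine Finset.sum_congr rfl fun i _ => ?_
      rw [real_inner_smul_left]
      ring
    simp only [h1, h2]
    rw [integral_finsetSum _ fun i _ => (integrable_mul_test hu (hφ.D _)).const_mul _,
      integral_finsetSum _ fun i _ => (integrable_mul_test_on (hW i) hφ).const_mul _,
      ← Finset.sum_neg_distrib]
    refine Finset.sum_congr rfl fun i _ => ?_
    rw [integral_const_mul, integral_const_mul, hWD i φ hφ]
    ring

theorem integral_localize {B Ω : Set E} (hB : MeasurableSet B) (hBΩ : B ⊆ Ω) {a a' ψ : E → ℝ}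
    (hψ : ∀ x, x ∉ B → ψ x = 0) (h : a' =ᵐ[volume.restrict B] a) :
    ∫ x, a' x * ψ x = ∫ x in Ω, a x * ψ x := by
  rw [setIntegral_eq_integral_of_forall_compl_eq_zero
    (fun x hx => by rw [hψ x fun h' => hx (hBΩ h'), mul_zero])]
  refine integral_congr_ae ?_
  filter_upwards [(ae_restrict_iff' hB).1 h] with x hx
  by_cases hxB : x ∈ B
  · rw [hx hxB]
  · simp [hψ x hxB]

theorem exists_good {F : Type} [NormedAddCommGroup F] [MeasurableSpace F] [BorelSpace F]
    {B : Set E} (hB : MeasurableSet B) {a : E → F} (ha : IntegrableOn a B) :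
    ∃ a' : E → F, Measurable a' ∧ LocallyIntegrable a' volume ∧ a' =ᵐ[volume.restrict B] a := by
  refine ⟨B.indicator (ha.1.mk a), ha.1.stronglyMeasurable_mk.measurable.indicator hB, ?_, ?_⟩
  · exact ((integrable_indicator_iff hB).2 (ha.congr ha.1.ae_eq_mk)).locallyIntegrable
  · filter_upwards [ae_restrict_mem hB, ha.1.ae_eq_mk] with x hx hx'
    rw [indicator_of_mem hx, hx']

end Pool.Agent.MP_7afc88_an

end
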