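import Pool.Agent.MP_7afc88_an.Mg.Exist
import Pool.Agent.MP_7afc88_an.Defs

open MeasureTheory Set Metric Filter Topology Laplacian Module
open scoped ContDiff InnerProductSpace ENNReal NNReal

namespace Pool.Agent.MP_7afc88_an

variable {N : ℕ} {Ω : Set (EuclideanSpace ℝ (Fin N))}

theorem WL_of {B : Set (EuclideanSpace ℝ (Fin N))} (hB : MeasurableSet B) (hBΩ : B ⊆ Ω)
    {v F v' F' : EuclideanSpace ℝ (Fin N) → ℝ} (h : IsWeakLaplacian Ω v F)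
    (hv : v' =ᵐ[volume.restrict B] v) (hF : F' =ᵐ[volume.restrict B] F) : WL B v' F' := by
  intro φ hφ
  rw [integral_localize hB hBΩ (fun x hx => hφ.Lap.zero hx) hv,
    integral_localize hB hBΩ (fun x hx => hφ.zero hx) hF, ← laplacian_eq_Lap hφ.smooth]
  exact h φ ⟨hφ.smooth, hφ.cpt, hφ.sub.trans hBΩ⟩

theorem exists_weakGradient (hΩ : IsOpen Ω) {u f : EuclideanSpace ℝ (Fin N) → ℝ}
    (hu : IntegrableOn u Ω) (hf : IntegrableOn f Ω) (h : IsWeakLaplacian Ω u f) :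
    ∃ G, IsWeakGradient Ω u G := by
  obtain ⟨u', -, hu1, hu2⟩ := exists_good hΩ.measurableSet hu
  obtain ⟨f', hfm, hf1, hf2⟩ := exists_good hΩ.measurableSet hf
  obtain ⟨G, hG, hD⟩ := exists_grad hΩ hu1 hf1 hfm (WL_of hΩ.measurableSet Subset.rfl h hu2 hf2)
  refine ⟨G, hG, fun φ hφ e => ?_⟩
  have T : Test Ω φ := ⟨hφ.1, hφ.2.1, hφ.2.2⟩
  have := hD e φ T
  rw [integral_localize hΩ.measurableSet Subset.rfl (fun x hx => (T.D e).zero hx) hu2,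
    integral_localize hΩ.measurableSet Subset.rfl (fun x hx => T.zero hx) EventuallyEq.rfl] at this
  exact this

theorem core_global (hΩ : IsOpen Ω) {u f g : EuclideanSpace ℝ (Fin N) → ℝ}
    (hu : IntegrableOn u Ω) (hf : IntegrableOn f Ω) (hg : IntegrableOn g Ω)
    {Φ : ℝ → ℝ} (hΦ : ConvexOn ℝ univ Φ) {L : ℝ≥0} (hL : LipschitzWith L Φ)
    (h1 : IsWeakLaplacian Ω u f) (h2 : IsWeakLaplacian Ω (fun x => Φ (u x)) g)
    {G : EuclideanSpace ℝ (Fin N) → EuclideanSpace ℝ (Fin N)} (hG : IsWeakGradient Ω u G) :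
    ∀ᵐ x ∂(volume.restrict Ω),
      (G x = 0 → ∀ p, Ld Φ (u x) ≤ p → p ≤ Rd Φ (u x) → g x = p * f x) ∧
      (G x ≠ 0 → ∃ a, HasDerivAt (Rd Φ) a (u x) ∧ g x = Rd Φ (u x) * f x + a * ‖G x‖ ^ 2) := by
  obtain ⟨U, hU, hcov, hint⟩ := hG.1.exists_nat_integrableOn
  have key : ∀ n, ∀ᵐ x, x ∈ U n ∩ Ω →
      (G x = 0 → ∀ p, Ld Φ (u x) ≤ p → p ≤ Rd Φ (u x) → g x = p * f x) ∧
      (G x ≠ 0 → ∃ a, HasDerivAt (Rd Φ) a (u x) ∧ g x = Rd Φ (u x) * f x + a * ‖G x‖ ^ 2) := by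
    intro n
    have hB : IsOpen (U n ∩ Ω) := (hU n).inter hΩ
    have hBm := hB.measurableSet
    have hs : U n ∩ Ω ⊆ Ω := inter_subset_right
    obtain ⟨u', hum, hu1, hu2⟩ := exists_good hBm (hu.mono_set hs)
    obtain ⟨f', hfm, hf1, hf2⟩ := exists_good hBm (hf.mono_set hs)
    obtain ⟨g', hgm, hg1, hg2⟩ := exists_good hBm (hg.mono_set hs)
    obtain ⟨G', hGm, hG1, hG2⟩ := exists_good hBm (hint n)
    have hD : ∀ e, WD (U n ∩ Ω) e u' fun w => ⟪G' w, e⟫_ℝ := by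
      intro e φ hφ
      rw [integral_localize hBm hs (fun x hx => (hφ.D e).zero hx) hu2,
        integral_localize (a := fun w => ⟪G w, e⟫_ℝ) hBm hs (fun x hx => hφ.zero hx)
          (by filter_upwards [hG2] with x hx; rw [hx])]
      exact hG.2 φ ⟨hφ.smooth, hφ.cpt, hφ.sub.trans hs⟩ e
    have := core hB hu1 hum hf1 hfm hg1 hgm hG1 hΦ hL (WL_of hBm hs h1 hu2 hf2)
      (WL_of hBm hs h2 (by filter_upwards [hu2] with x hx; rw [hx]) hg2) hD hGm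
    filter_upwards [this, (ae_restrict_iff' hBm).1 hu2, (ae_restrict_iff' hBm).1 hf2,
      (ae_restrict_iff' hBm).1 hg2, (ae_restrict_iff' hBm).1 hG2] with x a1 a2 a3 a4 a5 hx
    have a6 := a1 hx
    rwa [a2 hx, a3 hx, a4 hx, a5 hx] at a6
  rw [ae_restrict_iff' hΩ.measurableSet]
  filter_upwards [ae_all_iff.2 key] with x hx hxΩ
  obtain ⟨n, hn⟩ := mem_iUnion.1 (hcov hxΩ)
  exact hx n ⟨hn, hxΩ⟩

theorem chain_rule (hΩ : IsOpen Ω) {u f g : EuclideanSpace ℝ (Fin N) → ℝ}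
    (hu : IntegrableOn u Ω) (hf : IntegrableOn f Ω) (hg : IntegrableOn g Ω)
    {Φ : ℝ → ℝ} (hΦ : ConvexOn ℝ univ Φ) {L : ℝ≥0} (hL : LipschitzWith L Φ)
    (h1 : IsWeakLaplacian Ω u f) (h2 : IsWeakLaplacian Ω (fun x => Φ (u x)) g)
    {G : EuclideanSpace ℝ (Fin N) → EuclideanSpace ℝ (Fin N)} (hG : IsWeakGradient Ω u G) :
    ∀ᵐ x ∂(volume.restrict Ω), ∃ A B : ℝ,
      ((f x = 0 ∧ A = 0) ∨ (f x ≠ 0 ∧ ∃ d : ℝ, HasDerivAt Φ d (u x) ∧ A = d * f x)) ∧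
      ((G x = 0 ∧ B = 0) ∨ (G x ≠ 0 ∧ ∃ a : ℝ, HasSecondDerivAt Φ a (u x) ∧ B = a * ‖G x‖ ^ 2)) ∧
      g x = A + B := by
  filter_upwards [core_global hΩ hu hf hg hΦ hL h1 h2 hG] with x hx
  by_cases hG0 : G x = 0
  · have a1 := hx.1 hG0 _ le_rfl (Ld_le_Rd hΦ _)
    have a2 := hx.1 hG0 _ (Ld_le_Rd hΦ _) le_rfl
    refine ⟨Rd Φ (u x) * f x, 0, ?_, Or.inl ⟨hG0, rfl⟩, by rw [a2, add_zero]⟩
    by_cases hf0 : f x = 0
    · exact Or.inl ⟨hf0, by rw [hf0, mul_zero]⟩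
    · exact Or.inr ⟨hf0, _, hasDerivAt_of_Ld_eq hΦ (mul_right_cancel₀ hf0 (a1.symm.trans a2)), rfl⟩
  · obtain ⟨a, ha, hga⟩ := hx.2 hG0
    have hd := hasDerivAt_of_Ld_eq hΦ (Ld_eq_of_continuousAt hΦ ha.continuousAt)
    refine ⟨Rd Φ (u x) * f x, a * ‖G x‖ ^ 2, ?_, Or.inr ⟨hG0, a, ⟨hd.differentiableAt, ?_⟩, rfl⟩,
      hga⟩
    · by_cases hf0 : f x = 0
      · exact Or.inl ⟨hf0, by rw [hf0, mul_zero]⟩
      · exact Or.inr ⟨hf0, _, hd, rfl⟩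
    · exact ha.hasDerivWithinAt.congr (fun s hs => deriv_eq_Rd hs)
        (deriv_eq_Rd hd.differentiableAt)

end Pool.Agent.MP_7afc88_an
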